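import Pool.Agent.H82.Diam.Basic

/-! # Project DIAM, stubs DIAM12, DIAM13, DIAM14 (helper82) -/

set_option autoImplicit false

namespace Pool.Agent.H82.Diam

open Finset Pool.Agent.H30.Diam

section gen
variable {V : Type} [DecidableEq V]

/-- the witnesses of a disjoint pair meet in the leftovers, apart from cross hits -/
theorem wit_inter (G B : Finset (Finset V)) {W W' : Finset V} (hd : Disjoint W W') :
    (wit G W ∩ wit B W').card ≤
      (lo G W ∩ lo B W').card + (lo G W ∩ W').card + (lo B W' ∩ W).card := by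
  have hsub : wit G W ∩ wit B W' ⊆ ((lo G W ∩ lo B W') ∪ (lo G W ∩ W')) ∪ (lo B W' ∩ W) := by
    intro x hx
    rw [Finset.mem_inter] at hx
    rw [Finset.mem_union, Finset.mem_union, Finset.mem_inter, Finset.mem_inter, Finset.mem_inter]
    by_cases h1 : x ∈ W
    · have h2 : x ∉ W' := Finset.disjoint_left.1 hd h1
      exact Or.inr ⟨Finset.mem_sdiff.2 ⟨hx.2, h2⟩, h1⟩
    · have h3 : x ∈ lo G W := Finset.mem_sdiff.2 ⟨hx.1, h1⟩
      by_cases h2 : x ∈ W'
      · exact Or.inl (Or.inr ⟨h3, h2⟩)
      · exact Or.inl (Or.inl ⟨h3, Finset.mem_sdiff.2 ⟨hx.2, h2⟩⟩)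
  calc _ ≤ (((lo G W ∩ lo B W') ∪ (lo G W ∩ W')) ∪ (lo B W' ∩ W)).card := Finset.card_le_card hsub
    _ ≤ ((lo G W ∩ lo B W') ∪ (lo G W ∩ W')).card + (lo B W' ∩ W).card := Finset.card_union_le _ _
    _ ≤ _ := Nat.add_le_add_right (Finset.card_union_le _ _) _

theorem card_symm (F F' : Finset V) : (symmDiff F F').card + 2 * (F ∩ F').card = F.card + F'.card := by
  have h1 : (symmDiff F F').card = (F \ F').card + (F' \ F).card := by
    rw [symmDiff_def, Finset.sup_eq_union, Finset.card_union_of_disjoint]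
    exact disjoint_sdiff_sdiff
  have h2 := Finset.card_sdiff_add_card_inter F F'
  have h3 := Finset.card_sdiff_add_card_inter F' F
  rw [Finset.inter_comm F' F] at h3
  omega

theorem fam_inter {d : ℕ} {𝓔 : Finset (Finset V)} (hE : Fam d 𝓔) {i j : ℕ} {F F' : Finset V}
    (hF : F ∈ lev 𝓔 (d + 2 * i)) (hF' : F' ∈ lev 𝓔 (d + 2 * j)) : i + j ≤ (F ∩ F').card := by
  obtain ⟨h1, h2⟩ := Finset.mem_filter.1 hF
  obtain ⟨h3, h4⟩ := Finset.mem_filter.1 hF'
  have h5 := hE.diam F h1 F' h3
  have h6 := card_symm F F'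
  omega

end gen

section types
variable {V : Type} [Fintype V] [DecidableEq V]

theorem Ev_mono {q : ℝ} (hq0 : 0 ≤ q) (hq1 : q ≤ 1) (f g : Finset V → ℝ) (h : ∀ W, f W ≤ g W) :
    Ev q f ≤ Ev q g := EL_mono hq0 hq1 _ _ _ fun W _ => h W

theorem Ev_compl (q : ℝ) (p : Finset V → Prop) :
    Ev q (fun W => ind (¬ p W)) = 1 - Ev q (fun W => ind (p W)) := by
  have h1 : Ev q (fun W => ind (¬ p W)) = Ev q (fun W => 1 - ind (p W)) := by
    apply EL_congr
    intro W _
    by_cases h : p W
    · rw [ind_true h, ind_false (fun h' => h' h)]; norm_num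
    · rw [ind_false h, ind_true h]; norm_num
  rw [h1]
  unfold Ev
  rw [EL_sub, EL_const]

/-- the probability that a point is in the random set -/
theorem EL_mem {α : Type} [DecidableEq α] (q : ℝ) (l : List α) (hl : l.Nodup) (x : α) (hx : x ∈ l) :
    EL q l (fun W => ind (x ∈ W)) = q := by
  induction l with
  | nil => simp at hx
  | cons a l ih =>
    rw [List.nodup_cons] at hl
    rw [EL_cons]
    by_cases hxa : x = a
    · subst hxa
      have h1 : EL q l (fun W => ind (x ∈ W)) = 0 := by
        have : EL q l (fun W => ind (x ∈ W)) = EL q l (fun _ => 0) := by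
          apply EL_congr
          intro W hW
          apply ind_false
          intro h
          exact hl.1 (by simpa using hW h)
        rw [this, EL_const]
      have h2 : EL q l (fun W => ind (x ∈ insert x W)) = 1 := by
        have : EL q l (fun W => ind (x ∈ insert x W)) = EL q l (fun _ => 1) := by
          apply EL_congr
          intro W _
          exact ind_true (Finset.mem_insert_self _ _)
        rw [this, EL_const]
      rw [h1, h2]
      ring
    · have hx' : x ∈ l := by
        rcases List.mem_cons.1 hx with h | h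
        · exact absurd h hxa
        · exact h
      have h2 : EL q l (fun W => ind (x ∈ insert a W)) = EL q l (fun W => ind (x ∈ W)) := by
        apply EL_congr
        intro W _
        apply ind_congr
        rw [Finset.mem_insert]
        constructor
        · rintro (h | h)
          · exact absurd h hxa
          · exact h
        · exact Or.inr
      rw [h2, ih hl.2 hx']
      ring

theorem Ev_mem (q : ℝ) (x : V) : Ev q (fun W => ind (x ∈ W)) = q :=
  EL_mem q _ nodup_univ x (Finset.mem_toList.2 (Finset.mem_univ x))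

/-- expected size -/
theorem Ev_card (q : ℝ) (b : Finset V → Finset V) :
    ∑ z : V, Ev q (fun W => ind (z ∈ b W)) = Ev q (fun W => ((b W).card : ℝ)) := by
  unfold Ev
  rw [← EL_sum]
  congr 1
  funext W
  have : ∀ z : V, ind (z ∈ b W) = if z ∈ b W then (1 : ℝ) else 0 := by
    intro z
    by_cases h : z ∈ b W
    · rw [ind_true h, if_pos h]
    · rw [ind_false h, if_neg h]
  rw [Finset.sum_congr rfl (fun z _ => this z), ← Finset.sum_filter, Finset.sum_const, nsmul_eq_mul,
    mul_one]
  congr 1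
  congr 1
  ext z
  simp

/-- second moment type lower bound for a function which is at least one on the good pairs -/
theorem Dv_ge (hcross : S_cross) {q : ℝ} (hq0 : 0 < q) (hq1 : q ≤ 1 / 4)
    (G B : Finset (Finset V)) (p₁ p₂ : Finset V → Prop) (wG wB : ℕ) (x y : ℝ)
    (hx : x ≤ Ev q (fun W => ind (p₁ W))) (hG : ∀ W, p₁ W → (lo G W).card ≤ wG)
    (hy : y ≤ Ev q (fun W => ind (p₂ W))) (hB : ∀ W, p₂ W → (lo B W).card ≤ wB)
    (Φ : Finset V → Finset V → ℝ) (hΦ0 : ∀ W W', 0 ≤ Φ W W')
    (hΦ : ∀ W W', Disjoint W W' → p₁ W → p₂ W' → (lo G W ∩ W').card = 0 →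
      (lo B W' ∩ W).card = 0 → 1 ≤ Φ W W') :
    x + y - 1 - 2 * q * (wG + wB) ≤ Dv q Φ := by
  classical
  let a : Finset V → Finset V := fun W => if p₁ W then lo G W else ∅
  let b : Finset V → Finset V := fun W => if p₂ W then lo B W else ∅
  have ha1 : ∀ W, Disjoint (a W) W := by
    intro W
    simp only [a]
    split_ifs
    · exact lo_disj G W
    · exact Finset.disjoint_empty_left _
  have hb1 : ∀ W, Disjoint (b W) W := by
    intro W
    simp only [b]
    split_ifs
    · exact lo_disj B W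
    · exact Finset.disjoint_empty_left _
  have ha2 : ∀ W, (a W).card ≤ wG := by
    intro W
    simp only [a]
    split_ifs with h
    · exact hG W h
    · simp
  have hb2 : ∀ W, (b W).card ≤ wB := by
    intro W
    simp only [b]
    split_ifs with h
    · exact hB W h
    · simp
  have c1 := (hcross V q hq0 hq1 a wG ha1 ha2).1
  have c2 := (hcross V q hq0 hq1 b wB hb1 hb2).2
  have key : (1 : ℝ) ≤ Dv q (fun W W' => ((1 - ind (p₁ W)) + (1 - ind (p₂ W'))) +
      ((((a W ∩ W').card : ℝ) + ((b W' ∩ W).card : ℝ)) + Φ W W')) := by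
    have h0 : (1 : ℝ) = Dv q (fun (_ _ : Finset V) => (1 : ℝ)) := (DL_const q _ 1).symm
    rw [h0]
    apply DL_mono hq0.le (by linarith) _ nodup_univ
    intro W W' _ _ hd
    have k1 := ind_le_one (p₁ W)
    have k2 := ind_le_one (p₂ W')
    have k3 : (0 : ℝ) ≤ ((a W ∩ W').card : ℝ) := Nat.cast_nonneg _
    have k4 : (0 : ℝ) ≤ ((b W' ∩ W).card : ℝ) := Nat.cast_nonneg _
    have k5 := hΦ0 W W'
    by_cases h1 : p₁ W
    · by_cases h2 : p₂ W'
      · by_cases h3 : (lo G W ∩ W').card = 0
        · by_cases h4 : (lo B W' ∩ W).card = 0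
          · have := hΦ W W' hd h1 h2 h3 h4
            linarith
          · have h5 : (1 : ℝ) ≤ ((b W' ∩ W).card : ℝ) := by
              have h6 : b W' = lo B W' := if_pos h2
              rw [h6]
              exact_mod_cast Nat.one_le_iff_ne_zero.2 h4
            linarith
        · have h5 : (1 : ℝ) ≤ ((a W ∩ W').card : ℝ) := by
            have h6 : a W = lo G W := if_pos h1
            rw [h6]
            exact_mod_cast Nat.one_le_iff_ne_zero.2 h3
          linarith
      · rw [ind_false h2]
        linarith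
    · rw [ind_false h1]
      linarith
  have hsplit : Dv q (fun W W' => ((1 - ind (p₁ W)) + (1 - ind (p₂ W'))) +
      ((((a W ∩ W').card : ℝ) + ((b W' ∩ W).card : ℝ)) + Φ W W')) =
      ((1 - Ev q (fun W => ind (p₁ W))) + (1 - Ev q (fun W => ind (p₂ W)))) +
      ((Dv q (fun W W' => ((a W ∩ W').card : ℝ)) + Dv q (fun W W' => ((b W' ∩ W).card : ℝ))) +
        Dv q Φ) := by
    unfold Dv Ev
    rw [DL_add, DL_add, DL_add, DL_add]
    rw [DL_left q _ (fun W => 1 - ind (p₁ W)), DL_right q _ (fun W => 1 - ind (p₂ W)), EL_sub,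
      EL_sub, EL_const]
  rw [hsplit] at key
  linarith

end types

lemma eps2_le : eps 2 / (2 * (2 : ℕ) + 1) ≤ tau := by
  unfold eps tau
  norm_num

lemma U_nonneg (d m : ℕ) : 0 ≤ U d m := Nat.cast_nonneg _

/-- a large family in a level `d + 2 j`, `j ≤ 1`: small leftovers with high probability -/
theorem tail_le (htail : S_tail) {d m : ℕ} {q : ℝ} (hpar : Par d m q) {V : Type} [Fintype V]
    [DecidableEq V] (hV : Fintype.card V = m) {𝓔 B : Finset (Finset V)} {j : ℕ} (hj : j ≤ 1)
    (hB : B ⊆ lev 𝓔 (d + 2 * j)) (hc : tau * U d m ≤ B.card) :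
    B.Nonempty ∧ 1 - q ≤ Ev q (fun W => ind ((lo B W).card ≤ 2 * j + 1)) := by
  have hd := hpar.d1
  have h1 := htail d m q hpar V hV 2 j B (by omega)
    (fun F hF => (Finset.mem_filter.1 (hB hF)).2)
    ((mul_le_mul_of_nonneg_right eps2_le (U_nonneg d m)).trans hc)
  refine ⟨h1.1, ?_⟩
  have h2 : (2 + j) / 200 = 0 := by omega
  have h3 : Ev q (fun W => ind ((lo B W).card ≤ 2 * j + 1)) =
      1 - Ev q (fun W => ind (2 * j + 1 + (2 + j) / 200 < (lo B W).card)) := by
    rw [h2, Nat.add_zero, ← Ev_compl]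
    apply EL_congr
    intro W _
    apply ind_congr
    omega
  rw [h3]
  linarith [h1.2]

theorem capt (htail : S_tail) (hpair : S_pair) : S_capt := by
  intro d m q hpar V _ _ hV 𝓔 hE i j G C Y hi hj hG hGn hC hCc hY hYp
  have hq0 := hpar.q0
  have hq1 : q ≤ 1 / 10 ^ 15 := hpar.q1
  have hq1' : q ≤ 1 / 10 ^ 3 := hq1.trans (by norm_num)
  obtain ⟨hCn, htl⟩ := tail_le htail hpar hV hj hC hCc
  obtain ⟨W, W', hd, h1, h2, h3⟩ := hpair V q hq0 (by linarith) G C (fun W => lo G W = Y)
    (fun W => (lo C W).card ≤ 2 * j + 1) 3 3 0 (1 / 100) (1 - q) hYp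
    (fun W h => by rw [h]; exact hY) htl (fun W h => by omega) (by
      push_cast
      norm_num
      linarith)
  have h4 := wit_inter G C hd
  have h5 := fam_inter hE (hG (wit_mem hGn W)) (hC (wit_mem hCn W'))
  refine ⟨wit C W', wit_mem hCn W', ?_⟩
  have h6 : (lo G W ∩ lo C W').card ≤ (wit C W' ∩ Y).card := by
    apply Finset.card_le_card
    rw [h1, Finset.inter_comm]
    exact Finset.inter_subset_inter_right (lo_sub C W')
  omega

end Pool.Agent.H82.Diam
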