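import Pool.Agent.H82.Diam.Capt

/-! # Project DIAM, stubs DIAM13, DIAM14 (helper82) -/

set_option autoImplicit false

namespace Pool.Agent.H82.Diam

open Finset Pool.Agent.H30.Diam

section types
variable {V : Type} [Fintype V] [DecidableEq V]

theorem Ev_nonneg {q : ℝ} (hq0 : 0 ≤ q) (hq1 : q ≤ 1) (f : Finset V → ℝ) (h : ∀ W, 0 ≤ f W) :
    0 ≤ Ev q f := EL_nonneg hq0 hq1 _ _ fun W _ => h W

theorem Ev_ind_nonneg {q : ℝ} (hq0 : 0 ≤ q) (hq1 : q ≤ 1) (p : Finset V → Prop) :
    0 ≤ Ev q (fun W => ind (p W)) := Ev_nonneg hq0 hq1 _ fun _ => ind_nonneg _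

theorem Ev_ind_le {q : ℝ} (hq0 : 0 ≤ q) (hq1 : q ≤ 1) (p : Finset V → Prop) :
    Ev q (fun W => ind (p W)) ≤ 1 := by
  have := Ev_mono hq0 hq1 (fun W => ind (p W)) (fun _ => 1) fun W => ind_le_one _
  unfold Ev at this ⊢
  rwa [EL_const] at this

theorem Ev_sum_le {q : ℝ} (hq0 : 0 ≤ q) (hq1 : q ≤ 1) (b : Finset V → Finset V) (w : ℕ)
    (h : ∀ W, (b W).card ≤ w) : ∑ z : V, Ev q (fun W => ind (z ∈ b W)) ≤ w := by
  rw [Ev_card]
  have := Ev_mono hq0 hq1 (fun W => ((b W).card : ℝ)) (fun _ => (w : ℝ)) fun W => by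
    exact_mod_cast h W
  unfold Ev at this ⊢
  rwa [EL_const] at this

/-- a popular element: if the average of `α` against `β` is large then some `α z` is large -/
theorem exists_pop (α β : V → ℝ) (hβ : ∀ z, 0 ≤ β z) {c s : ℝ} (hs : 0 ≤ s)
    (hsum : ∑ z, β z ≤ c) (h : s * c < ∑ z, α z * β z) : ∃ z, s ≤ α z := by
  by_contra hcon
  push Not at hcon
  have h1 : ∑ z, α z * β z ≤ ∑ z, s * β z :=
    Finset.sum_le_sum fun z _ => mul_le_mul_of_nonneg_right (hcon z).le (hβ z)
  rw [← Finset.mul_sum] at h1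
  have h2 := mul_le_mul_of_nonneg_left hsum hs
  linarith

theorem beta_large (α β : V → ℝ) (hα : ∀ z, 0 ≤ α z) (hα1 : ∀ z, α z ≤ 1)
    (hβ0 : ∀ z, 0 ≤ β z) (hβ1 : ∀ z, β z ≤ 1)
    (hsum : ∑ z, α z ≤ 1) {s t : ℝ} (h : s ≤ ∑ z, α z * β z) (z : V) (hz : 1 - t ≤ α z) :
    s - t ≤ β z := by
  classical
  have h1 : ∑ y, α y * β y = α z * β z + ∑ y ∈ Finset.univ.erase z, α y * β y :=
    (Finset.add_sum_erase _ _ (Finset.mem_univ z)).symm
  have h2 : ∑ y, α y = α z + ∑ y ∈ Finset.univ.erase z, α y :=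
    (Finset.add_sum_erase _ _ (Finset.mem_univ z)).symm
  have h3 : ∑ y ∈ Finset.univ.erase z, α y * β y ≤ ∑ y ∈ Finset.univ.erase z, α y := by
    apply Finset.sum_le_sum
    intro y _
    have := mul_le_mul_of_nonneg_left (hβ1 y) (hα y)
    linarith
  have h4 : α z * β z ≤ β z := by
    have := mul_le_mul_of_nonneg_right (hα1 z) (hβ0 z)
    linarith
  linarith

/-- if `X ⊆ L`, `|X| = 2`, `|L| ≤ 3` and `z ∈ L \ X` then `L = insert z X` -/
theorem eq_insert {X L : Finset V} (hX : X.card = 2) (hL : L.card ≤ 3) (hsub : X ⊆ L) {z : V}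
    (hz : z ∈ L \ X) : L = insert z X := by
  rw [Finset.mem_sdiff] at hz
  symm
  apply Finset.eq_of_subset_of_card_le
  · exact Finset.insert_subset hz.1 hsub
  · rw [Finset.card_insert_of_notMem hz.2]
    omega

end types

theorem triple (htail : S_tail) (hcommon : S_common) (hcross : S_cross) : S_triple := by
  classical
  intro d m q hpar V _ _ hV 𝓔 hE X hX hc1 hc0
  have hq0 := hpar.q0
  have hq1 : q ≤ 1 / 10 ^ 15 := hpar.q1
  have hq1' : q ≤ 1 / 10 ^ 4 := hq1.trans (by norm_num)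
  have hqa : q ≤ 1 := hq1'.trans (by norm_num)
  set B1 := (lev 𝓔 (d + 2)).filter (fun F => X ⊆ F) with hB1
  set B0 := (lev 𝓔 d).filter (fun F => Disjoint F X) with hB0
  have hB1s : B1 ⊆ lev 𝓔 (d + 2 * 1) := Finset.filter_subset _ _
  have hB0s : B0 ⊆ lev 𝓔 (d + 2 * 0) := Finset.filter_subset _ _
  obtain ⟨hn1, ht1⟩ := tail_le htail hpar hV (le_refl 1) hB1s hc1
  obtain ⟨hn0, ht0⟩ := tail_le htail hpar hV (Nat.zero_le 1) hB0s hc0
  have hX1 : ∀ W, X ⊆ wit B1 W := fun W => (Finset.mem_filter.1 (wit_mem hn1 W)).2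
  have hX0 : ∀ W, Disjoint (wit B0 W) X := fun W => (Finset.mem_filter.1 (wit_mem hn0 W)).2
  -- the event `p₁`
  let p₁ : Finset V → Prop := fun W => Disjoint X W ∧ (lo B1 W).card ≤ 3
  let p₂ : Finset V → Prop := fun W => (lo B0 W).card ≤ 1
  have hp1X : ∀ W, p₁ W → X ⊆ lo B1 W := by
    intro W hW x hx
    exact Finset.mem_sdiff.2 ⟨hX1 W hx, Finset.disjoint_left.1 hW.1 hx⟩
  have hp1 : 1 - 3 * q ≤ Ev q (fun W => ind (p₁ W)) := by
    have h1 : Ev q (fun W => ind ((lo B1 W).card ≤ 2 * 1 + 1) - ∑ x ∈ X, ind (x ∈ W)) ≤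
        Ev q (fun W => ind (p₁ W)) := by
      apply Ev_mono hq0.le hqa
      intro W
      have hs : (0 : ℝ) ≤ ∑ x ∈ X, ind (x ∈ W) := Finset.sum_nonneg fun x _ => ind_nonneg _
      by_cases hd : Disjoint X W
      · have : ind (p₁ W) = ind ((lo B1 W).card ≤ 2 * 1 + 1) :=
          ind_congr ⟨fun h => h.2, fun h => ⟨hd, h⟩⟩
        rw [this]
        linarith
      · rw [Finset.not_disjoint_iff] at hd
        obtain ⟨x, hx, hxW⟩ := hd
        have h2 : ind (x ∈ W) ≤ ∑ x ∈ X, ind (x ∈ W) :=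
          Finset.single_le_sum (f := fun x => ind (x ∈ W)) (fun x _ => ind_nonneg _) hx
        rw [ind_true hxW] at h2
        have h3 := ind_le_one ((lo B1 W).card ≤ 2 * 1 + 1)
        have h4 := ind_nonneg (p₁ W)
        linarith
    have h2 : Ev q (fun W => ind ((lo B1 W).card ≤ 2 * 1 + 1) - ∑ x ∈ X, ind (x ∈ W)) =
        Ev q (fun W => ind ((lo B1 W).card ≤ 2 * 1 + 1)) - 2 * q := by
      have h3 : Ev q (fun W => ∑ x ∈ X, ind (x ∈ W)) = 2 * q := by
        have : Ev q (fun W => ∑ x ∈ X, ind (x ∈ W)) = ∑ x ∈ X, Ev q (fun W => ind (x ∈ W)) := by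
          unfold Ev
          exact EL_sum q _ X (fun x W => ind (x ∈ W))
        rw [this, Finset.sum_congr rfl fun x _ => Ev_mem q x, Finset.sum_const, hX, nsmul_eq_mul]
        norm_num
      rw [← h3]
      unfold Ev
      rw [EL_sub]
    rw [h2] at h1
    linarith
  have hp2 : 1 - q ≤ Ev q (fun W => ind (p₂ W)) := ht0
  let a : Finset V → Finset V := fun W => if p₁ W then lo B1 W \ X else ∅
  let b : Finset V → Finset V := fun W => if p₂ W then lo B0 W else ∅
  have ha : ∀ W, (a W).card ≤ 1 := by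
    intro W
    simp only [a]
    split_ifs with h
    · have h1 := Finset.card_sdiff_of_subset (hp1X W h)
      have h2 := h.2
      omega
    · simp
  have hb : ∀ W, (b W).card ≤ 1 := by
    intro W
    simp only [b]
    split_ifs with h
    · exact h
    · simp
  have hD := Dv_ge hcross hq0 (by linarith) B1 B0 p₁ p₂ 3 1 (1 - 3 * q) (1 - q) hp1
    (fun W h => h.2) hp2 (fun W h => h) (fun W W' => ((a W ∩ b W').card : ℝ))
    (fun W W' => Nat.cast_nonneg _) (by
      intro W W' hd h1 h2 h3 h4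
      have h5 := wit_inter B1 B0 hd
      have h6 := fam_inter hE (hB1s (wit_mem hn1 W)) (hB0s (wit_mem hn0 W'))
      have h7 : lo B1 W ∩ lo B0 W' ⊆ a W ∩ b W' := by
        intro x hx
        rw [Finset.mem_inter] at hx
        have e1 : a W = lo B1 W \ X := if_pos h1
        have e2 : b W' = lo B0 W' := if_pos h2
        rw [e1, e2, Finset.mem_inter, Finset.mem_sdiff]
        exact ⟨⟨hx.1, Finset.disjoint_left.1 (hX0 W') (lo_sub B0 W' hx.2)⟩, hx.2⟩
      have h8 := Finset.card_le_card h7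
      have h9 : 1 ≤ (a W ∩ b W').card := by omega
      exact_mod_cast h9)
  have hC := hcommon V q hq0 (by linarith) a b 1 1 ha hb
  push_cast at hD hC
  have hsum : 1 - 14 * q ≤
      ∑ z : V, Ev q (fun W => ind (z ∈ a W)) * Ev q (fun W => ind (z ∈ b W)) := by
    linarith
  have hα0 : ∀ z : V, 0 ≤ Ev q (fun W => ind (z ∈ a W)) := fun z =>
    Ev_ind_nonneg hq0.le hqa (fun W => z ∈ a W)
  have hα1 : ∀ z : V, Ev q (fun W => ind (z ∈ a W)) ≤ 1 := fun z =>
    Ev_ind_le hq0.le hqa (fun W => z ∈ a W)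
  have hβ0 : ∀ z : V, 0 ≤ Ev q (fun W => ind (z ∈ b W)) := fun z =>
    Ev_ind_nonneg hq0.le hqa (fun W => z ∈ b W)
  have hβ1 : ∀ z : V, Ev q (fun W => ind (z ∈ b W)) ≤ 1 := fun z =>
    Ev_ind_le hq0.le hqa (fun W => z ∈ b W)
  have hαs := Ev_sum_le hq0.le hqa a 1 ha
  have hβs := Ev_sum_le hq0.le hqa b 1 hb
  rw [Nat.cast_one] at hαs hβs
  obtain ⟨z, hz⟩ := exists_pop (fun z : V => Ev q (fun W => ind (z ∈ a W)))
    (fun z : V => Ev q (fun W => ind (z ∈ b W))) hβ0 (c := 1) (s := 1 - 15 * q) (by linarith) hβs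
    (by linarith)
  have hzβ := beta_large (fun z : V => Ev q (fun W => ind (z ∈ a W)))
    (fun z : V => Ev q (fun W => ind (z ∈ b W))) hα0 hα1 hβ0 hβ1 hαs hsum z
    (t := 15 * q) (by linarith)
  refine ⟨z, ?_, ?_, ?_⟩
  · intro hzX
    have h0 : Ev q (fun W => ind (z ∈ a W)) ≤ 0 := by
      have : Ev q (fun W => ind (z ∈ a W)) ≤ Ev q (fun _ : Finset V => (0 : ℝ)) := by
        apply Ev_mono hq0.le hqa
        intro W
        apply le_of_eq
        apply ind_false
        intro h
        simp only [a] at h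
        split_ifs at h
        · exact (Finset.mem_sdiff.1 h).2 hzX
        · simp at h
      refine this.trans (le_of_eq ?_)
      unfold Ev
      exact EL_const _ _ _
    linarith
  · have h1 : Ev q (fun W => ind (z ∈ a W)) ≤ Ev q (fun W => ind (lo B1 W = insert z X)) := by
      apply Ev_mono hq0.le hqa
      intro W
      apply ind_mono
      intro h
      simp only [a] at h
      split_ifs at h with h2
      · exact eq_insert hX h2.2 (hp1X W h2) h
      · simp at h
    linarith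
  · have h1 : Ev q (fun W => ind (z ∈ b W)) ≤ Ev q (fun W => ind (lo B0 W = {z})) := by
      apply Ev_mono hq0.le hqa
      intro W
      apply ind_mono
      intro h
      simp only [b] at h
      split_ifs at h with h2
      · symm
        apply Finset.eq_of_subset_of_card_le
        · simpa using h
        · rw [Finset.card_singleton]; exact h2
      · simp at h
    linarith

theorem popPair (htail : S_tail) (hfindS : S_findS) (hcommon : S_common) (hcross : S_cross)
    (hcapt : S_capt) : S_popPair := by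
  classical
  intro d m q hpar V _ _ hV 𝓔 hE hT
  have hq0 := hpar.q0
  have hq1 : q ≤ 1 / 10 ^ 15 := hpar.q1
  have hq1' : q ≤ 1 / 10 ^ 5 := hq1.trans (by norm_num)
  have hqa : q ≤ 1 := hq1'.trans (by norm_num)
  set T := lev 𝓔 (d + 2) with hTdef
  have hU := U_nonneg d m
  have hdt : del * U d m = 256 * (tau * U d m) := by
    unfold del tau
    ring
  have htU : 0 ≤ tau * U d m := mul_nonneg (by unfold tau; norm_num) hU
  have hTs : T ⊆ lev 𝓔 (d + 2 * 1) := le_refl _
  have hTt : tau * U d m ≤ T.card := by linarith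
  obtain ⟨hTn, -⟩ := tail_le htail hpar hV (le_refl 1) hTs hTt
  obtain ⟨X0, hX0, hP0⟩ := hfindS d m q hpar V hV 𝓔 hE 1 T hTs (le_refl 1) (by norm_num) hpar.d1 (by
    have h1 : eps (1 + 1) / (2 * ((1 : ℕ) + 1) + 1) ≤ tau := by
      unfold eps tau
      norm_num
    have h2 := mul_le_mul_of_nonneg_right h1 hU
    push_cast at h2 ⊢
    linarith)
  have hX0' : X0.card = 2 := by omega
  by_cases hcase : (1 / 5 : ℝ) * T.card ≤ (T.filter (fun F => X0 ⊆ F)).card
  · exact ⟨X0, hX0', ⟨T, le_refl _, hTn, le_trans (by norm_num) hP0⟩, hcase⟩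
  push Not at hcase
  -- second case
  set B := T.filter (fun F => ¬ X0 ⊆ F) with hB
  have hBs : B ⊆ lev 𝓔 (d + 2 * 1) := Finset.filter_subset _ _
  have hcard : (T.filter (fun F => X0 ⊆ F)).card + B.card = T.card :=
    Finset.card_filter_add_card_filter_not _
  have hcard' : ((T.filter (fun F => X0 ⊆ F)).card : ℝ) + B.card = T.card := by
    exact_mod_cast hcard
  have hBt : tau * U d m ≤ B.card := by linarith
  obtain ⟨hBn, htB⟩ := tail_le htail hpar hV (le_refl 1) hBs hBt
  let p₁ : Finset V → Prop := fun W => X0 ⊆ lo T W ∧ (lo T W).card ≤ 3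
  let p₂ : Finset V → Prop := fun W => (lo B W).card ≤ 3
  have hp1 : 1 / 20 ≤ Ev q (fun W => ind (p₁ W)) := hP0
  have hp2 : 1 - q ≤ Ev q (fun W => ind (p₂ W)) := htB
  let a : Finset V → Finset V := fun W => if p₁ W then lo T W \ X0 else ∅
  let b : Finset V → Finset V := fun W => if p₂ W then lo B W else ∅
  have ha : ∀ W, (a W).card ≤ 1 := by
    intro W
    simp only [a]
    split_ifs with h
    · have h1 := Finset.card_sdiff_of_subset h.1
      have h2 := h.2
      omega
    · simp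
  have hb : ∀ W, (b W).card ≤ 3 := by
    intro W
    simp only [b]
    split_ifs with h
    · exact h
    · simp
  have hD := Dv_ge hcross hq0 (by linarith) T B p₁ p₂ 3 3 (1 / 20) (1 - q) hp1
    (fun W h => h.2) hp2 (fun W h => h) (fun W W' => ((a W ∩ b W').card : ℝ))
    (fun W W' => Nat.cast_nonneg _) (by
      intro W W' hd h1 h2 h3 h4
      have h5 := wit_inter T B hd
      have h6 := fam_inter hE (hTs (wit_mem hTn W)) (hBs (wit_mem hBn W'))
      have e1 : a W = lo T W \ X0 := if_pos h1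
      have e2 : b W' = lo B W' := if_pos h2
      have h7 : lo T W ∩ lo B W' ⊆ (a W ∩ b W') ∪ (wit B W' ∩ X0) := by
        intro x hx
        rw [Finset.mem_inter] at hx
        rw [e1, e2, Finset.mem_union, Finset.mem_inter, Finset.mem_inter, Finset.mem_sdiff]
        by_cases hxX : x ∈ X0
        · exact Or.inr ⟨lo_sub B W' hx.2, hxX⟩
        · exact Or.inl ⟨⟨hx.1, hxX⟩, hx.2⟩
      have h8 := (Finset.card_le_card h7).trans (Finset.card_union_le _ _)
      have h10 : ¬ X0 ⊆ wit B W' := (Finset.mem_filter.1 (wit_mem hBn W')).2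
      have h11 : (wit B W' ∩ X0).card < X0.card := by
        apply Finset.card_lt_card
        refine ⟨Finset.inter_subset_right, fun h => h10 ?_⟩
        exact h.trans Finset.inter_subset_left
      have h9 : 1 ≤ (a W ∩ b W').card := by omega
      exact_mod_cast h9)
  have hC := hcommon V q hq0 (by linarith) a b 1 3 ha hb
  push_cast at hD hC
  have hsum : 1 / 20 - 17 * q ≤
      ∑ z : V, Ev q (fun W => ind (z ∈ a W)) * Ev q (fun W => ind (z ∈ b W)) := by
    linarith
  have hβ0 : ∀ z : V, 0 ≤ Ev q (fun W => ind (z ∈ b W)) := fun z =>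
    Ev_ind_nonneg hq0.le hqa (fun W => z ∈ b W)
  have hβs := Ev_sum_le hq0.le hqa b 3 hb
  obtain ⟨z, hz⟩ := exists_pop (fun z : V => Ev q (fun W => ind (z ∈ a W)))
    (fun z : V => Ev q (fun W => ind (z ∈ b W))) hβ0 (c := ((3 : ℕ) : ℝ)) (s := 1 / 61)
    (by norm_num) hβs (by push_cast; linarith)
  have hzX : z ∉ X0 := by
    intro hzX
    have h0 : Ev q (fun W => ind (z ∈ a W)) ≤ 0 := by
      have : Ev q (fun W => ind (z ∈ a W)) ≤ Ev q (fun _ : Finset V => (0 : ℝ)) := by
        apply Ev_mono hq0.le hqa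
        intro W
        apply le_of_eq
        apply ind_false
        intro h
        simp only [a] at h
        split_ifs at h
        · exact (Finset.mem_sdiff.1 h).2 hzX
        · simp at h
      refine this.trans (le_of_eq ?_)
      unfold Ev
      exact EL_const _ _ _
    linarith
  set Y := insert z X0 with hYdef
  have hYc : Y.card = 3 := by
    rw [hYdef, Finset.card_insert_of_notMem hzX, hX0']
  have hYp : (1 / 61 : ℝ) ≤ Ev q (fun W => ind (lo T W = Y)) := by
    refine hz.trans ?_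
    apply Ev_mono hq0.le hqa
    intro W
    apply ind_mono
    intro h
    simp only [a] at h
    split_ifs at h with h2
    · exact eq_insert hX0' h2.2 h2.1 h
    · simp at h
  -- capture
  set C := T.filter (fun F => (F ∩ Y).card ≤ 1) with hCdef
  have hCs : C ⊆ lev 𝓔 (d + 2 * 1) := Finset.filter_subset _ _
  have hCt : (C.card : ℝ) < tau * U d m := by
    by_contra hcon
    push Not at hcon
    obtain ⟨F, hF, hF2⟩ := hcapt d m q hpar V hV 𝓔 hE 1 1 T C Y (le_refl 1) (le_refl 1) hTs hTn hCs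
      hcon hYc.le (le_trans (by norm_num) hYp)
    have := (Finset.mem_filter.1 hF).2
    omega
  -- pigeonhole
  have hcover : T ⊆ C ∪ Y.biUnion (fun y => T.filter (fun F => Y.erase y ⊆ F)) := by
    intro F hF
    rw [Finset.mem_union, Finset.mem_biUnion]
    by_cases hFC : (F ∩ Y).card ≤ 1
    · exact Or.inl (Finset.mem_filter.2 ⟨hF, hFC⟩)
    · right
      have h1 : (Y \ F).card ≤ 1 := by
        have := Finset.card_sdiff_add_card_inter Y F
        rw [Finset.inter_comm] at this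
        omega
      have hYn : Y.Nonempty := by
        rw [← Finset.card_pos, hYc]; norm_num
      obtain ⟨y, hy, hyF⟩ : ∃ y ∈ Y, Y \ F ⊆ {y} := by
        rcases (Y \ F).eq_empty_or_nonempty with h | ⟨y, hy⟩
        · obtain ⟨y, hy⟩ := hYn
          exact ⟨y, hy, by rw [h]; exact Finset.empty_subset _⟩
        · refine ⟨y, (Finset.mem_sdiff.1 hy).1, ?_⟩
          intro x hx
          rw [Finset.mem_singleton]
          exact Finset.card_le_one.1 h1 x hx y hy
      refine ⟨y, hy, Finset.mem_filter.2 ⟨hF, ?_⟩⟩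
      intro x hx
      by_contra hxF
      have := hyF (Finset.mem_sdiff.2 ⟨Finset.mem_of_mem_erase hx, hxF⟩)
      rw [Finset.mem_singleton] at this
      exact (Finset.ne_of_mem_erase hx) this
  have hcount : T.card ≤ C.card + ∑ y ∈ Y, (T.filter (fun F => Y.erase y ⊆ F)).card :=
    (Finset.card_le_card hcover).trans ((Finset.card_union_le _ _).trans
      (Nat.add_le_add_left Finset.card_biUnion_le _))
  have hcount' : (T.card : ℝ) ≤ C.card + ∑ y ∈ Y, ((T.filter (fun F => Y.erase y ⊆ F)).card : ℝ) := by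
    exact_mod_cast hcount
  obtain ⟨y, hy, hyN⟩ : ∃ y ∈ Y, (1 / 5 : ℝ) * T.card ≤ (T.filter (fun F => Y.erase y ⊆ F)).card := by
    by_contra hcon
    push Not at hcon
    have h1 : ∑ y ∈ Y, ((T.filter (fun F => Y.erase y ⊆ F)).card : ℝ) ≤ ∑ y ∈ Y, (1 / 5 : ℝ) * T.card :=
      Finset.sum_le_sum fun y hy => (hcon y hy).le
    rw [Finset.sum_const, hYc, nsmul_eq_mul] at h1
    push_cast at h1
    linarith
  refine ⟨Y.erase y, ?_, ⟨T, le_refl _, hTn, ?_⟩, hyN⟩
  · rw [Finset.card_erase_of_mem hy, hYc]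
  · refine le_trans (by norm_num) (hYp.trans ?_)
    apply Ev_mono hq0.le hqa
    intro W
    apply ind_mono
    intro h
    rw [h]
    exact ⟨Finset.erase_subset _ _, hYc.le⟩

end Pool.Agent.H82.Diam
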