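import Pool.Agent.H30.Diam.Stubs2
import Pool.Agent.H82.Diam.Pop

/-! # Project DIAM, stub DIAM23 (helper82): the common popular point -/

set_option autoImplicit false

namespace Pool.Agent.H82.Diam

open Finset Pool.Agent.H30.Diam

/-- `|F △ G △ D|` if `D` is disjoint from `F` and `G` -/
theorem card_symm3 {V : Type} [DecidableEq V] {F G D : Finset V} (hF : Disjoint F D)
    (hG : Disjoint G D) : (symmDiff (symmDiff F G) D).card = (symmDiff F G).card + D.card := by
  have h1 := card_symm (symmDiff F G) D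
  have h2 : symmDiff F G ∩ D = ∅ := by
    ext x
    simp only [Finset.mem_inter, Finset.mem_symmDiff, Finset.notMem_empty, iff_false]
    rintro ⟨h | h, hD⟩
    · exact Finset.disjoint_left.1 hF h.1 hD
    · exact Finset.disjoint_left.1 hG h.1 hD
  rw [h2, Finset.card_empty] at h1
  omega

theorem commonpt (htail : S_tail) (hcommon : S_common) (hcross : S_cross) : S_commonpt := by
  classical
  intro d m q hpar V _ _ hV 𝓐 𝓑 D hC hD hc1 hc0
  have hq0 := hpar.q0
  have hq1 : q ≤ 1 / 10 ^ 15 := hpar.q1
  have hq1' : q ≤ 1 / 10 ^ 4 := hq1.trans (by norm_num)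
  have hqa : q ≤ 1 := hq1'.trans (by norm_num)
  set G := (lev 𝓐 d).filter (fun F => Disjoint F D) with hG
  set B := (lev 𝓑 d).filter (fun F => Disjoint F D) with hB
  have hGs : G ⊆ lev 𝓐 (d + 2 * 0) := Finset.filter_subset _ _
  have hBs : B ⊆ lev 𝓑 (d + 2 * 0) := Finset.filter_subset _ _
  obtain ⟨hn1, ht1⟩ := tail_le htail hpar hV (Nat.zero_le 1) hGs hc1
  obtain ⟨hn0, ht0⟩ := tail_le htail hpar hV (Nat.zero_le 1) hBs hc0
  have hGD : ∀ W, Disjoint (wit G W) D := fun W => (Finset.mem_filter.1 (wit_mem hn1 W)).2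
  have hBD : ∀ W, Disjoint (wit B W) D := fun W => (Finset.mem_filter.1 (wit_mem hn0 W)).2
  let p₁ : Finset V → Prop := fun W => (lo G W).card ≤ 1
  let p₂ : Finset V → Prop := fun W => (lo B W).card ≤ 1
  have hp1 : 1 - q ≤ Ev q (fun W => ind (p₁ W)) := ht1
  have hp2 : 1 - q ≤ Ev q (fun W => ind (p₂ W)) := ht0
  let a : Finset V → Finset V := fun W => if p₁ W then lo G W else ∅
  let b : Finset V → Finset V := fun W => if p₂ W then lo B W else ∅
  have ha : ∀ W, (a W).card ≤ 1 := by
    intro W
    simp only [a]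
    split_ifs with h
    · exact h
    · simp
  have hb : ∀ W, (b W).card ≤ 1 := by
    intro W
    simp only [b]
    split_ifs with h
    · exact h
    · simp
  have hDv := Dv_ge hcross hq0 (by linarith) G B p₁ p₂ 1 1 (1 - q) (1 - q) hp1
    (fun W h => h) hp2 (fun W h => h) (fun W W' => ((a W ∩ b W').card : ℝ))
    (fun W W' => Nat.cast_nonneg _) (by
      intro W W' hd h1 h2 h3 h4
      have h5 := wit_inter G B hd
      obtain ⟨hF1, hF2⟩ := Finset.mem_filter.1 (hGs (wit_mem hn1 W))
      obtain ⟨hF3, hF4⟩ := Finset.mem_filter.1 (hBs (wit_mem hn0 W'))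
      have h6 := hC.dist _ hF1 _ hF3
      rw [card_symm3 (hGD W) (hBD W'), hD] at h6
      have h7 := card_symm (wit G W) (wit B W')
      have e1 : a W = lo G W := if_pos h1
      have e2 : b W' = lo B W' := if_pos h2
      have h9 : 1 ≤ (a W ∩ b W').card := by
        rw [e1, e2]
        omega
      exact_mod_cast h9)
  have hCm := hcommon V q hq0 (by linarith) a b 1 1 ha hb
  push_cast at hDv hCm
  have hsum : 1 - 8 * q ≤
      ∑ z : V, Ev q (fun W => ind (z ∈ a W)) * Ev q (fun W => ind (z ∈ b W)) := by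
    linarith
  have hα0 : ∀ z : V, 0 ≤ Ev q (fun W => ind (z ∈ a W)) := fun z =>
    Ev_ind_nonneg hq0.le hqa (fun W => z ∈ a W)
  have hα1 : ∀ z : V, Ev q (fun W => ind (z ∈ a W)) ≤ 1 := fun z =>
    Ev_ind_le hq0.le hqa (fun W => z ∈ a W)
  have hβ0 : ∀ z : V, 0 ≤ Ev q (fun W => ind (z ∈ b W)) := fun z =>
    Ev_ind_nonneg hq0.le hqa (fun W => z ∈ b W)
  have hβ1 : ∀ z : V, Ev q (fun W => ind (z ∈ b W)) ≤ 1 := fun z =>
    Ev_ind_le hq0.le hqa (fun W => z ∈ b W)
  have hαs := Ev_sum_le hq0.le hqa a 1 ha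
  have hβs := Ev_sum_le hq0.le hqa b 1 hb
  rw [Nat.cast_one] at hαs hβs
  obtain ⟨z, hz⟩ := exists_pop (fun z : V => Ev q (fun W => ind (z ∈ a W)))
    (fun z : V => Ev q (fun W => ind (z ∈ b W))) hβ0 (c := 1) (s := 1 - 9 * q) (by linarith) hβs
    (by linarith)
  have hzβ := beta_large (fun z : V => Ev q (fun W => ind (z ∈ a W)))
    (fun z : V => Ev q (fun W => ind (z ∈ b W))) hα0 hα1 hβ0 hβ1 hαs hsum z
    (t := 9 * q) (by linarith)
  refine ⟨z, ?_, ?_, ?_⟩
  · intro hzX
    have h0 : Ev q (fun W => ind (z ∈ a W)) ≤ 0 := by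
      have : Ev q (fun W => ind (z ∈ a W)) ≤ Ev q (fun _ : Finset V => (0 : ℝ)) := by
        apply Ev_mono hq0.le hqa
        intro W
        apply le_of_eq
        apply ind_false
        intro h
        simp only [a] at h
        split_ifs at h
        · exact Finset.disjoint_left.1 (hGD W) (lo_sub G W h) hzX
        · simp at h
      refine this.trans (le_of_eq ?_)
      unfold Ev
      exact EL_const _ _ _
    linarith
  · have h1 : Ev q (fun W => ind (z ∈ a W)) ≤ Ev q (fun W => ind (lo G W = {z})) := by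
      apply Ev_mono hq0.le hqa
      intro W
      apply ind_mono
      intro h
      simp only [a] at h
      split_ifs at h with h2
      · symm
        apply Finset.eq_of_subset_of_card_le
        · simpa using h
        · rw [Finset.card_singleton]; exact h2
      · simp at h
    linarith
  · have h1 : Ev q (fun W => ind (z ∈ b W)) ≤ Ev q (fun W => ind (lo B W = {z})) := by
      apply Ev_mono hq0.le hqa
      intro W
      apply ind_mono
      intro h
      simp only [b] at h
      split_ifs at h with h2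
      · symm
        apply Finset.eq_of_subset_of_card_le
        · simpa using h
        · rw [Finset.card_singleton]; exact h2
      · simp at h
    linarith

end Pool.Agent.H82.Diam
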