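import Pool.Agent.H30.Diam.Stubs2
import Pool.Agent.H30.Diam.Basic32

/-! # Project DIAM, stub DIAM32 (helper82): assembly of the odd case -/

set_option autoImplicit false

namespace Pool.Agent.H82.Diam

open Finset Pool.Agent.H30.Diam

section
variable {V : Type} [Fintype V] [DecidableEq V]

theorem ov_sh (d : ℕ) (X : Finset V) (𝓔 : Finset (Finset V)) (A : Finset V) :
    ov d (sh X 𝓔) A = ov d 𝓔 (symmDiff X A) := by
  unfold ov sh
  rw [Finset.filter_image, Finset.card_image_of_injective _ (B32.sh_inj X)]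
  congr 1
  apply Finset.filter_congr
  intro F _
  rw [symmDiff_assoc]

theorem odd_symm (A B : Finset V) : (symmDiff A B).card % 2 = (A.card + B.card) % 2 := by
  have := B32.card_symmDiff A B
  omega

theorem cross_sh {d : ℕ} {𝓐 𝓑 : Finset (Finset V)} {D : Finset V} (h : Cross d 𝓐 𝓑 D)
    {X Y : Finset V} (hX : Even X.card) (hY : Even Y.card) :
    Cross d (sh X 𝓐) (sh Y 𝓑) (symmDiff (symmDiff D X) Y) := by
  refine ⟨B32.fam_sh h.fa hX, B32.fam_sh h.fb hY, ?_, ?_⟩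
  · have h1 := odd_symm (symmDiff D X) Y
    have h2 := odd_symm D X
    have h3 := h.odd
    obtain ⟨a, ha⟩ := hX
    obtain ⟨b, hb⟩ := hY
    omega
  · intro F hF G hG
    rw [B32.mem_sh] at hF hG
    have h1 := h.dist _ hF _ hG
    have e : symmDiff (symmDiff F G) (symmDiff (symmDiff D X) Y) =
        symmDiff (symmDiff (symmDiff F X) (symmDiff G Y)) D := by
      ext x
      by_cases h1 : x ∈ F <;> by_cases h2 : x ∈ G <;> by_cases h3 : x ∈ D <;>
        by_cases h4 : x ∈ X <;> by_cases h5 : x ∈ Y <;> simp [Finset.mem_symmDiff, h1, h2, h3, h4, h5]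
    rw [e]
    exact h1

theorem cross_symm {d : ℕ} {𝓐 𝓑 : Finset (Finset V)} {D : Finset V} (h : Cross d 𝓐 𝓑 D) :
    Cross d 𝓑 𝓐 D := by
  refine ⟨h.fb, h.fa, h.odd, ?_⟩
  intro F hF G hG
  rw [symmDiff_comm F G]
  exact h.dist G hG F hF

theorem goal_sh {d : ℕ} {𝓐 𝓑 : Finset (Finset V)} {D X Y : Finset V} (hX : Even X.card)
    (h : Goal d (sh X 𝓐) (sh Y 𝓑) (symmDiff (symmDiff D X) Y)) : Goal d 𝓐 𝓑 D := by
  obtain ⟨A, x, hA, h1⟩ := h
  refine ⟨symmDiff X A, x, ?_, ?_⟩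
  · have := odd_symm X A
    rw [Nat.even_iff] at hA hX ⊢
    omega
  · rw [ov_sh, ov_sh] at h1
    have e : symmDiff Y (symmDiff (symmDiff A {x}) (symmDiff (symmDiff D X) Y)) =
        symmDiff (symmDiff (symmDiff X A) {x}) D := by
      generalize ({x} : Finset V) = S
      ext y
      by_cases h1 : y ∈ A <;> by_cases h2 : y ∈ S <;> by_cases h3 : y ∈ D <;>
        by_cases h4 : y ∈ X <;> by_cases h5 : y ∈ Y <;> simp [Finset.mem_symmDiff, h1, h2, h3, h4, h5]
    rwa [e] at h1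

theorem goal_symm {d : ℕ} {𝓐 𝓑 : Finset (Finset V)} {D : Finset V} (hD : D.card % 2 = 1)
    (h : Goal d 𝓑 𝓐 D) : Goal d 𝓐 𝓑 D := by
  obtain ⟨A, x, hA, h1⟩ := h
  refine ⟨symmDiff (symmDiff A {x}) D, x, ?_, ?_⟩
  · have h2 := odd_symm (symmDiff A {x}) D
    have h3 := odd_symm A {x}
    rw [Finset.card_singleton] at h3
    rw [Nat.even_iff] at hA ⊢
    omega
  · have e : symmDiff (symmDiff (symmDiff (symmDiff A {x}) D) {x}) D = A := by
      generalize ({x} : Finset V) = S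
      ext y
      by_cases h1 : y ∈ A <;> by_cases h2 : y ∈ S <;> by_cases h3 : y ∈ D <;>
        simp [Finset.mem_symmDiff, h1, h2, h3]
    rw [e]
    omega

end

/-- DIAM-32 -/
theorem odd (hdich : S_dich) (hss : S_ss) (hks : S_ks) (hkk : S_kkcase) : S_odd := by
  intro d m q hpar V _ _ hV 𝓐 𝓑 D hC
  obtain ⟨X, hX, hXt⟩ := hdich d m q hpar V hV 𝓐 hC.fa
  obtain ⟨Y, hY, hYt⟩ := hdich d m q hpar V hV 𝓑 hC.fb
  apply goal_sh (X := X) (Y := Y) hX
  have hC' := cross_sh hC hX hY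
  rcases hXt with hX1 | ⟨Q, hX1⟩
  · rcases hYt with hY1 | ⟨Q', hY1⟩
    · exact hss d m q hpar V hV _ _ _ hC' hX1 hY1
    · exact goal_symm hC'.odd (hks d m q hpar V hV _ _ _ Q' (cross_symm hC') hY1 hX1)
  · rcases hYt with hY1 | ⟨Q', hY1⟩
    · exact hks d m q hpar V hV _ _ _ Q hC' hX1 hY1
    · exact hkk d m q hpar V hV _ _ _ Q Q' hC' hX1 hY1

end Pool.Agent.H82.Diam
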