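import Pool.Agent.H31.Diam.Final
import Pool.Agent.H82.Diam.Odd

/-! # Project DIAM, stubs DIAM31, DIAM33 (helper82) -/

set_option autoImplicit false

namespace Pool.Agent.H82.Diam

open Finset Pool.Agent.H30.Diam Pool.Agent.H31.Diam

/-- DIAM-31 -/
theorem dich (h1 : S_stage1) (h2 : S_struct) : S_dich := by
  classical
  intro d m q hpar V _ _ hV 𝓔 hF
  subst hV
  let S : Finset (Finset V) :=
    (Finset.univ : Finset (Finset V)).filter (fun X => Even X.card ∧ Good d (sh X 𝓔) 1)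
  have hS : S.Nonempty := by
    obtain ⟨X, hX, hG⟩ := h1 d _ q hpar V rfl 𝓔 hF
    exact ⟨X, Finset.mem_filter.2 ⟨Finset.mem_univ _, hX, hG⟩⟩
  obtain ⟨X, hXS, hmin⟩ := S.exists_min_image (fun X => (lev (sh X 𝓔) (d + 2)).card) hS
  obtain ⟨-, hXe, hXG⟩ := Finset.mem_filter.1 hXS
  have hF' := Pool.Agent.H31.Diam.fam_sh hF hXe
  refine ⟨X, hXe, ?_⟩
  by_cases hdel : del * U d (Fintype.card V) ≤ (lev (sh X 𝓔) (d + 2)).card
  · right
    obtain ⟨Q, hQ, hb1, hb2, hb3, hb4⟩ := h2 d _ q hpar V rfl (sh X 𝓔) hF' hXG (by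
      intro Y hY hYG
      rw [Pool.Agent.H31.Diam.sh_sh] at hYG ⊢
      refine hmin (symmDiff Y X) (Finset.mem_filter.2 ⟨Finset.mem_univ _, ?_, hYG⟩)
      have h4 := card_symmDiff_parity Y X
      obtain ⟨k, hk⟩ := hXe
      exact ⟨k + 1 - (Y ∩ X).card, by omega⟩) hdel
    exact ⟨Q, hXG, hQ, hb1, hb2, hb3, hb4⟩
  · left
    exact ⟨hXG, le_of_not_ge hdel⟩

/-- DIAM-33 -/
theorem finalodd (h : S_odd) : S_finalodd := by
  classical
  refine ⟨20 * (10 ^ 15) ^ 1601, fun n d hd hn 𝓕 h𝓕 => ?_⟩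
  have hn' : 40 * (10 ^ 15) ^ 1601 * d ≤ n := by
    refine le_trans ?_ hn.le
    generalize (10 ^ 15) ^ 1601 = K
    calc 40 * K * d = 20 * K * (2 * d) := by ring
      _ ≤ 20 * K * (2 * d + 1) := Nat.mul_le_mul_left _ (Nat.le_succ _)
  have hn0 : 0 < n := lt_of_le_of_lt (Nat.zero_le _) hn
  obtain ⟨q, hq0, hq1, hq2⟩ := par_exists (10 ^ 15) 1601 (by norm_num) (by norm_num) d n
    hd hn'
  clear hn hn'
  have hpar : Par d n q := by
    refine ⟨hd, hq0, ?_, hq2⟩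
    have h1 : ((10 ^ 15 : ℕ) : ℝ) = 10 ^ 15 := by norm_num
    rw [h1] at hq1
    exact hq1
  let v0 : Fin n := ⟨0, hn0⟩
  set 𝓐 := 𝓕.filter (fun F => F.card % 2 = d % 2) with h𝓐
  set 𝓑 := 𝓕.filter (fun F => ¬ F.card % 2 = d % 2) with h𝓑
  have hA : Fam d 𝓐 := by
    refine ⟨fun F hF G hG => ?_, fun F hF => (Finset.mem_filter.1 hF).2⟩
    obtain ⟨h1, h2⟩ := Finset.mem_filter.1 hF
    obtain ⟨h3, h4⟩ := Finset.mem_filter.1 hG
    have h5 := h𝓕 F h1 G h3
    have h6 := odd_symm F G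
    omega
  have hB : Fam d (sh {v0} 𝓑) := by
    refine ⟨fun F hF G hG => ?_, fun F hF => ?_⟩
    · rw [Pool.Agent.H31.Diam.mem_sh] at hF hG
      obtain ⟨h1, h2⟩ := Finset.mem_filter.1 hF
      obtain ⟨h3, h4⟩ := Finset.mem_filter.1 hG
      have h5 := h𝓕 _ h1 _ h3
      have e : symmDiff (symmDiff F {v0}) (symmDiff G {v0}) = symmDiff F G := by
        rw [symmDiff_symmDiff_symmDiff_comm, symmDiff_self, symmDiff_bot]
      have h6 := odd_symm (symmDiff F {v0}) (symmDiff G {v0})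
      rw [e] at h5 h6
      omega
    · rw [Pool.Agent.H31.Diam.mem_sh] at hF
      obtain ⟨h1, h2⟩ := Finset.mem_filter.1 hF
      have h6 := odd_symm F {v0}
      rw [Finset.card_singleton] at h6
      omega
  have hcross : Cross d 𝓐 (sh {v0} 𝓑) {v0} := by
    refine ⟨hA, hB, by simp, ?_⟩
    intro F hF G hG
    rw [Pool.Agent.H31.Diam.mem_sh] at hG
    have h1 := (Finset.mem_filter.1 hF).1
    have h2 := (Finset.mem_filter.1 hG).1
    have h3 := h𝓕 _ h1 _ h2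
    rwa [← symmDiff_assoc] at h3
  obtain ⟨A, x, -, hAx⟩ := h d n q hpar (Fin n) (Fintype.card_fin n) 𝓐 (sh {v0} 𝓑) {v0} hcross
  refine ⟨A, x, ?_⟩
  rw [ov_sh, Fintype.card_fin] at hAx
  have e : symmDiff {v0} (symmDiff (symmDiff A {x}) {v0}) = symmDiff A {x} := by
    rw [symmDiff_comm (symmDiff A {x}) {v0}, symmDiff_symmDiff_cancel_left]
  rw [e] at hAx
  have hsub : 𝓕.filter (fun F => d < (symmDiff F A \ {x}).card) ⊆
      𝓐.filter (fun F => d < (symmDiff F A).card) ∪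
        𝓑.filter (fun F => d < (symmDiff F (symmDiff A {x})).card) := by
    intro F hF
    obtain ⟨h1, h2⟩ := Finset.mem_filter.1 hF
    rw [Finset.mem_union]
    by_cases hp : F.card % 2 = d % 2
    · left
      refine Finset.mem_filter.2 ⟨Finset.mem_filter.2 ⟨h1, hp⟩, h2.trans_le ?_⟩
      exact Finset.card_le_card Finset.sdiff_subset
    · right
      refine Finset.mem_filter.2 ⟨Finset.mem_filter.2 ⟨h1, hp⟩, h2.trans_le ?_⟩
      apply Finset.card_le_card
      intro y hy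
      rw [Finset.mem_sdiff, Finset.mem_singleton] at hy
      rw [← symmDiff_assoc, Finset.mem_symmDiff, Finset.mem_singleton]
      exact Or.inl hy
  have h1 := (Finset.card_le_card hsub).trans (Finset.card_union_le _ _)
  exact h1.trans hAx

end Pool.Agent.H82.Diam
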