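import Pool.Agent.H30.Diam.Stubs2

/-! # Project DIAM, stub DIAM22 (helper82): low levels are negligible -/

set_option autoImplicit false

namespace Pool.Agent.H82.Diam

open Finset Pool.Agent.H30.Diam

theorem choose_step (n k : ℕ) (h : 1000 * k ≤ n + 1) :
    999 * (n + 1).choose k ≤ 1000 * n.choose k := by
  have h1 := Nat.choose_mul_succ_eq n k
  have h2 : 999 * (n + 1) ≤ 1000 * (n + 1 - k) := by omega
  have h3 : (n + 1) * (999 * (n + 1).choose k) ≤ (n + 1) * (1000 * n.choose k) := by
    calc (n + 1) * (999 * (n + 1).choose k) = (n + 1).choose k * (999 * (n + 1)) := by ring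
      _ ≤ (n + 1).choose k * (1000 * (n + 1 - k)) := Nat.mul_le_mul_left _ h2
      _ = 1000 * ((n + 1).choose k * (n + 1 - k)) := by ring
      _ = 1000 * (n.choose k * (n + 1)) := by rw [h1]
      _ = (n + 1) * (1000 * n.choose k) := by ring
  exact Nat.le_of_mul_le_mul_left h3 (Nat.succ_pos n)

theorem choose_step2 (m k : ℕ) (h : 2001 * (k + 1) ≤ m) :
    2000 * m.choose k ≤ m.choose (k + 1) := by
  have h1 := Nat.choose_succ_right_eq m k
  have h2 : 2000 * (k + 1) ≤ m - k := by omega
  have h3 : (k + 1) * (2000 * m.choose k) ≤ (k + 1) * m.choose (k + 1) := by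
    calc (k + 1) * (2000 * m.choose k) = m.choose k * (2000 * (k + 1)) := by ring
      _ ≤ m.choose k * (m - k) := Nat.mul_le_mul_left _ h2
      _ = m.choose (k + 1) * (k + 1) := h1.symm
      _ = (k + 1) * m.choose (k + 1) := by ring
  exact Nat.le_of_mul_le_mul_left h3 (Nat.succ_pos k)

theorem sum_low (m : ℕ) : ∀ j : ℕ, 2001 * (j + 1) ≤ m →
    ∑ k ∈ Finset.range (j + 1), m.choose k ≤ 2 * m.choose j := by
  intro j
  induction j with
  | zero => intro _; simp
  | succ j ih =>
    intro h
    rw [Finset.sum_range_succ]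
    have h1 := ih (by omega)
    have h2 := choose_step2 m j (by omega)
    omega

theorem par_big {d m : ℕ} {q : ℝ} (hpar : Par d m q) : 10 ^ 6 * d ≤ m := by
  have h0 := hpar.q0
  have h1 := hpar.q1
  have hq := hpar.hq
  have h2 : q ≤ 1 := h1.trans (by norm_num)
  have h3 : q ^ 1601 ≤ 1 / 10 ^ 15 := by
    calc q ^ 1601 ≤ q ^ 1 := pow_le_pow_of_le_one h0.le h2 (by norm_num)
      _ = q := pow_one q
      _ ≤ _ := h1
  have h4 : (40 : ℝ) * d ≤ 1 / 10 ^ 15 * m := by
    rw [← hq]
    exact mul_le_mul_of_nonneg_right h3 (Nat.cast_nonneg m)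
  have h5 : ((10 ^ 6 * d : ℕ) : ℝ) ≤ m := by
    push_cast
    have hd : (0 : ℝ) ≤ d := Nat.cast_nonneg d
    linarith
  exact_mod_cast h5

/-- DIAM-22 -/
theorem low : S_low := by
  intro d m q hpar V _ _ hV
  have hd := hpar.d1
  have hm := par_big hpar
  obtain ⟨e, rfl⟩ : ∃ e, d = e + 1 := ⟨d - 1, by omega⟩
  obtain ⟨n, rfl⟩ : ∃ n, m = n + 3 := ⟨m - 3, by omega⟩
  have s1 := choose_step n e (by omega)
  have s2 : 999 * (n + 2).choose e ≤ 1000 * (n + 1).choose e := choose_step (n + 1) e (by omega)
  have s3 : 999 * (n + 3).choose e ≤ 1000 * (n + 2).choose e := choose_step (n + 2) e (by omega)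
  have hU : U (e + 1) (n + 3) = ((n.choose e : ℕ) : ℝ) := rfl
  constructor
  · intro 𝓔 hE
    rw [hU]
    rcases Nat.eq_zero_or_pos e with he | he
    · subst he
      have : 𝓔.filter (fun F => F.card < 0 + 1) = ∅ := by
        rw [Finset.filter_eq_empty_iff]
        intro F hF h
        have := hE.par F hF
        omega
      rw [this]
      simp only [Finset.card_empty, Nat.cast_zero]
      positivity
    · obtain ⟨j, rfl⟩ : ∃ j, e = j + 1 := ⟨e - 1, by omega⟩
      have h1 : 𝓔.filter (fun F => F.card < j + 1 + 1) ⊆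
          (Finset.range (j + 1)).biUnion (fun k => Finset.powersetCard k Finset.univ) := by
        intro F hF
        obtain ⟨hF1, hF2⟩ := Finset.mem_filter.1 hF
        have := hE.par F hF1
        rw [Finset.mem_biUnion]
        refine ⟨F.card, ?_, ?_⟩
        · rw [Finset.mem_range]
          omega
        · rw [Finset.mem_powersetCard]
          exact ⟨Finset.subset_univ _, rfl⟩
      have h2 := (Finset.card_le_card h1).trans Finset.card_biUnion_le
      have h3 : ∑ k ∈ Finset.range (j + 1), (Finset.powersetCard k (Finset.univ : Finset V)).card =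
          ∑ k ∈ Finset.range (j + 1), (n + 3).choose k := by
        apply Finset.sum_congr rfl
        intro k _
        rw [Finset.card_powersetCard, Finset.card_univ, hV]
      rw [h3] at h2
      have h2' : (𝓔.filter (fun F => F.card < j + 1 + 1)).card ≤
          ∑ k ∈ Finset.range (j + 1), (n + 3).choose k := h2
      have h4 := sum_low (n + 3) j (by omega)
      have h5 := choose_step2 (n + 3) j (by omega)
      have h6 : 100 * (𝓔.filter (fun F => F.card < j + 1 + 1)).card ≤ n.choose (j + 1) := by
        omega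
      have h7 : (100 : ℝ) * ((𝓔.filter (fun F => F.card < j + 1 + 1)).card : ℝ) ≤
          ((n.choose (j + 1) : ℕ) : ℝ) := by
        exact_mod_cast h6
      linarith
  · rw [hU]
    have h6 : 100 * (n + 3 - 1).choose (e + 1 - 1) ≤ 101 * n.choose e := by
      have h7 : n + 3 - 1 = n + 2 := rfl
      have h8 : e + 1 - 1 = e := rfl
      rw [h7, h8]
      omega
    have h7 : (100 : ℝ) * (((n + 3 - 1).choose (e + 1 - 1) : ℕ) : ℝ) ≤
        101 * ((n.choose e : ℕ) : ℝ) := by
      exact_mod_cast h6
    linarith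

end Pool.Agent.H82.Diam
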