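import Pool.Agent.H82.Diam.Basic

/-! # Project DIAM, stub DIAM1: the blow-up lemma (helper82) -/

set_option autoImplicit false

namespace Pool.Agent.H82.Diam

open Finset Pool.Agent.H30.Diam

lemma blow_num {P q θ x0 x1 h0 h1 : ℝ} (hP : 0 < P) (hθ : 0 < θ) (hθ1 : θ ≤ 1) (hq1 : q < 1)
    (hqθ : q * θ = P) (hx0 : 0 ≤ x0) (hh0 : 0 ≤ h0) (h01 : h0 ≤ h1)
    (e1 : x1 * h1 ≤ 1) (e0 : x0 * h0 ≤ 1) (e2 : θ * x0 * h1 ≤ 1) :
    ((1 - q) * x0 + q * x1) * ((1 - P) * h0 + P * h1) ≤ 1 := by
  have hq0 : 0 < q := by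
    by_contra h
    push Not at h
    nlinarith
  have hPq : P ≤ q := by
    rw [← hqθ]
    exact mul_le_of_le_one_right hq0.le hθ1
  rcases eq_or_lt_of_le (hh0.trans h01) with h1z | h1p
  · have : h0 = 0 := le_antisymm (by rw [h1z]; exact h01) hh0
    rw [this, ← h1z]
    norm_num
  · set ρ : ℝ := h0 / h1 with hρ
    have hρ0 : 0 ≤ ρ := div_nonneg hh0 h1p.le
    have hρ1 : ρ ≤ 1 := (div_le_one h1p).2 h01
    have hh : h0 = ρ * h1 := by rw [hρ]; field_simp
    set X0 : ℝ := x0 * h1 with hX0
    set X1 : ℝ := x1 * h1 with hX1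
    have hX00 : 0 ≤ X0 := mul_nonneg hx0 h1p.le
    have f0 : ρ * X0 ≤ 1 := by rw [hX0]; rw [hh] at e0; nlinarith
    have f2 : θ * X0 ≤ 1 := by rw [hX0]; nlinarith
    have hprod : ((1 - q) * x0 + q * x1) * ((1 - P) * h0 + P * h1) =
        ((1 - q) * X0 + q * X1) * (P + (1 - P) * ρ) := by
      rw [hX0, hX1, hh]
      ring
    rw [hprod]
    set σ : ℝ := max ρ θ with hσ
    have hσθ : θ ≤ σ := le_max_right _ _
    have hσρ : ρ ≤ σ := le_max_left _ _
    have hσ1 : σ ≤ 1 := max_le hρ1 hθ1
    have hσ0 : 0 < σ := hθ.trans_le hσθ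
    have fσ : σ * X0 ≤ 1 := by
      rcases max_cases ρ θ with ⟨h, _⟩ | ⟨h, _⟩
      · rw [hσ, h]; exact f0
      · rw [hσ, h]; exact f2
    have hP1 : P < 1 := hPq.trans_lt hq1
    have g1 : (1 - q) * X0 + q * X1 ≤ (1 - q) * X0 + q := by
      have : q * X1 ≤ q * 1 := mul_le_mul_of_nonneg_left e1 hq0.le
      linarith
    have g2 : P + (1 - P) * ρ ≤ P + (1 - P) * σ := by
      have : (1 - P) * ρ ≤ (1 - P) * σ := mul_le_mul_of_nonneg_left hσρ (by linarith)
      linarith
    have g3 : 0 ≤ P + (1 - P) * ρ := by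
      have : 0 ≤ (1 - P) * ρ := mul_nonneg (by linarith) hρ0
      linarith
    have g4 : 0 ≤ (1 - q) * X0 + q := by
      have : 0 ≤ (1 - q) * X0 := mul_nonneg (by linarith) hX00
      linarith
    have g5 : ((1 - q) * X0 + q * X1) * (P + (1 - P) * ρ) ≤
        ((1 - q) * X0 + q) * (P + (1 - P) * σ) :=
      (mul_le_mul_of_nonneg_right g1 g3).trans (mul_le_mul_of_nonneg_left g2 g4)
    have g6 : 0 ≤ P + (1 - P) * σ := g3.trans g2
    have g7 : σ * (((1 - q) * X0 + q) * (P + (1 - P) * σ)) ≤ σ * 1 := by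
      have k1 : σ * ((1 - q) * X0 + q) ≤ (1 - q) + q * σ := by
        have : (1 - q) * (σ * X0) ≤ (1 - q) * 1 := mul_le_mul_of_nonneg_left fσ (by linarith)
        nlinarith
      have k2 : σ * (((1 - q) * X0 + q) * (P + (1 - P) * σ)) ≤
          ((1 - q) + q * σ) * (P + (1 - P) * σ) := by
        rw [← mul_assoc]
        exact mul_le_mul_of_nonneg_right k1 g6
      have k3 : 0 ≤ (1 - σ) * (q * (1 - P) * σ - (1 - q) * P) := by
        apply mul_nonneg (by linarith)
        have m1 : q * (1 - P) * θ ≤ q * (1 - P) * σ :=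
          mul_le_mul_of_nonneg_left hσθ (mul_nonneg hq0.le (by linarith))
        have m2 : q * (1 - P) * θ = P * (1 - P) := by rw [← hqθ]; ring
        have m3 : P * (1 - q) ≤ P * (1 - P) := mul_le_mul_of_nonneg_left (by linarith) hP.le
        linarith
      nlinarith
    exact g5.trans (le_of_mul_le_mul_left g7 hσ0)

theorem blow : S_blow := by
  intro α _ P q θ hP hθ hθ1 hq1 hqθ l hl B hB hBl g hg
  have hq0 : 0 < q := by
    by_contra h
    push Not at h
    nlinarith
  have hPq : P ≤ q := by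
    rw [← hqθ]
    exact mul_le_of_le_one_right hq0.le hθ1
  have hP1 : P ≤ 1 := (hPq.trans_lt hq1).le
  have hθinv : 1 ≤ θ⁻¹ := (one_le_inv₀ hθ).2 hθ1
  -- only the subsets of the list matter
  suffices H : ∀ (l : List α), l.Nodup → ∀ (B : Finset (Finset α)), B.Nonempty →
      (∀ F ∈ B, F ⊆ l.toFinset) → ∀ (g : Finset α → ℕ),
      (∀ W, W ⊆ l.toFinset → ∀ F ∈ B, g W ≤ (F \ W).card) →
      EL q l (fun W => (θ⁻¹) ^ (g W)) * EL P l (fun W => ind (∃ F ∈ B, F ⊆ W)) ≤ 1 from
    H l hl B hB hBl g fun W _ => hg W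
  clear hg hBl hB hl l B g
  intro l
  induction l with
  | nil =>
    intro _ B hB hBl g hg
    obtain ⟨F, hF⟩ := hB
    have hF0 : F = ∅ := Finset.subset_empty.1 (hBl F hF)
    have hg0 : g ∅ = 0 := by
      have := hg ∅ (Finset.empty_subset _) F hF
      rw [hF0] at this
      simpa using this
    rw [EL_nil, EL_nil, hg0, pow_zero, one_mul]
    exact ind_le_one _
  | cons a l ih =>
    intro hl B hB hBl g hg
    rw [List.nodup_cons] at hl
    have ha : a ∉ l.toFinset := by simpa using hl.1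
    have hsub : l.toFinset ⊆ (a :: l).toFinset := by
      rw [List.toFinset_cons]; exact Finset.subset_insert _ _
    have hins : ∀ W, W ⊆ l.toFinset → insert a W ⊆ (a :: l).toFinset := fun W hW => by
      rw [List.toFinset_cons]; exact Finset.insert_subset_insert _ hW
    set B1 : Finset (Finset α) := B.image (fun F => F.erase a) with hB1
    set B0 : Finset (Finset α) := B.filter (fun F => a ∉ F) with hB0
    have hB1n : B1.Nonempty := hB.image _
    have hB1l : ∀ F ∈ B1, F ⊆ l.toFinset := by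
      intro F hF
      obtain ⟨F', hF', rfl⟩ := Finset.mem_image.1 hF
      have h1 := hBl F' hF'
      rw [List.toFinset_cons] at h1
      exact Finset.subset_insert_iff.1 h1
    have hB0l : ∀ F ∈ B0, F ⊆ l.toFinset := by
      intro F hF
      obtain ⟨h1, h2⟩ := Finset.mem_filter.1 hF
      have h3 := hBl F h1
      rw [List.toFinset_cons] at h3
      exact (Finset.subset_insert_iff_of_notMem h2).1 h3
    set h1 : ℝ := EL P l (fun W => ind (∃ F ∈ B1, F ⊆ W)) with hh1
    set h0 : ℝ := EL P l (fun W => ind (∃ F ∈ B0, F ⊆ W)) with hh0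
    have hexp : EL P (a :: l) (fun W => ind (∃ F ∈ B, F ⊆ W)) = (1 - P) * h0 + P * h1 := by
      rw [EL_cons]
      have e0 : EL P l (fun W => ind (∃ F ∈ B, F ⊆ W)) = h0 := by
        apply EL_congr
        intro W hW
        apply ind_congr
        constructor
        · rintro ⟨F, hF, hFW⟩
          exact ⟨F, Finset.mem_filter.2 ⟨hF, fun h => ha (hW (hFW h))⟩, hFW⟩
        · rintro ⟨F, hF, hFW⟩
          exact ⟨F, (Finset.mem_filter.1 hF).1, hFW⟩
      have e1 : EL P l (fun W => ind (∃ F ∈ B, F ⊆ insert a W)) = h1 := by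
        apply EL_congr
        intro W hW
        apply ind_congr
        constructor
        · rintro ⟨F, hF, hFW⟩
          exact ⟨F.erase a, Finset.mem_image_of_mem _ hF, Finset.subset_insert_iff.1 hFW⟩
        · rintro ⟨F, hF, hFW⟩
          obtain ⟨F', hF', rfl⟩ := Finset.mem_image.1 hF
          exact ⟨F', hF', Finset.subset_insert_iff.2 hFW⟩
      rw [e0, e1]
    rw [hexp, EL_cons]
    apply blow_num hP hθ hθ1 hq1 hqθ
    · exact EL_nonneg hq0.le hq1.le l _ fun W _ => pow_nonneg (by linarith) _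
    · exact EL_nonneg hP.le hP1 l _ fun W _ => ind_nonneg _
    · apply EL_mono hP.le hP1
      intro W _
      apply ind_mono
      rintro ⟨F, hF, hFW⟩
      obtain ⟨g1, g2⟩ := Finset.mem_filter.1 hF
      exact ⟨F.erase a, Finset.mem_image_of_mem _ g1, (Finset.erase_subset _ _).trans hFW⟩
    · apply ih hl.2 B1 hB1n hB1l (fun W => g (insert a W))
      intro W hW F hF
      obtain ⟨F', hF', rfl⟩ := Finset.mem_image.1 hF
      refine (hg (insert a W) (hins W hW) F' hF').trans (le_of_eq ?_)
      congr 1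
      ext x
      simp only [Finset.mem_sdiff, Finset.mem_insert, Finset.mem_erase]
      tauto
    · rcases B0.eq_empty_or_nonempty with hB0e | hB0n
      · have : h0 = 0 := by
          rw [hh0, hB0e]
          have : EL P l (fun W => ind (∃ F ∈ (∅ : Finset (Finset α)), F ⊆ W)) = EL P l (fun _ => 0) := by
            apply EL_congr
            intro W _
            apply ind_false
            rintro ⟨F, hF, _⟩
            simp at hF
          rw [this, EL_const]
        rw [this, mul_zero]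
        norm_num
      · apply ih hl.2 B0 hB0n hB0l g
        intro W hW F hF
        exact hg W (hW.trans hsub) F (Finset.mem_filter.1 hF).1
    · have h3 := ih hl.2 B1 hB1n hB1l (fun W => g W - 1) (by
        intro W hW F hF
        obtain ⟨F', hF', rfl⟩ := Finset.mem_image.1 hF
        have h4 := hg W (hW.trans hsub) F' hF'
        have h5 : (F' \ W).card ≤ (F'.erase a \ W).card + 1 := by
          have h6 : F' \ W ⊆ insert a (F'.erase a \ W) := by
            intro x hx
            rw [Finset.mem_sdiff] at hx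
            rw [Finset.mem_insert, Finset.mem_sdiff, Finset.mem_erase]
            by_cases hxa : x = a
            · exact Or.inl hxa
            · exact Or.inr ⟨⟨hxa, hx.1⟩, hx.2⟩
          exact (Finset.card_le_card h6).trans (Finset.card_insert_le _ _)
        omega)
      have h4 : θ * EL q l (fun W => (θ⁻¹) ^ (g W)) ≤ EL q l (fun W => (θ⁻¹) ^ (g W - 1)) := by
        rw [← EL_const_mul]
        apply EL_mono hq0.le hq1.le
        intro W _
        rcases Nat.eq_zero_or_pos (g W) with h | h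
        · rw [h]
          simp only [pow_zero, mul_one, Nat.zero_sub]
          exact hθ1
        · obtain ⟨k, hk⟩ : ∃ k, g W = k + 1 := ⟨g W - 1, by omega⟩
          rw [hk, Nat.add_sub_cancel, pow_succ]
          rw [mul_comm (θ⁻¹ ^ k), ← mul_assoc, mul_inv_cancel₀ hθ.ne', one_mul]
      have h5 : 0 ≤ h1 := EL_nonneg hP.le hP1 l _ fun W _ => ind_nonneg _
      calc θ * EL q l (fun W => (θ⁻¹) ^ (g W)) * h1 ≤ EL q l (fun W => (θ⁻¹) ^ (g W - 1)) * h1 :=
            mul_le_mul_of_nonneg_right h4 h5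
        _ ≤ 1 := h3

end Pool.Agent.H82.Diam
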