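import Pool.Agent.H82.Diam.Basic

/-! # Project DIAM, stub DIAM2: from a slice to the product measure (helper82) -/

set_option autoImplicit false

namespace Pool.Agent.H82.Diam

open Finset Pool.Agent.H30.Diam

theorem Ev_formula {V : Type} [Fintype V] [DecidableEq V] (q : ℝ) (f : Finset V → ℝ) :
    Ev q f = ∑ W ∈ (univ : Finset V).powerset,
      q ^ W.card * (1 - q) ^ (Fintype.card V - W.card) * f W := by
  unfold Ev
  rw [EL_formula q _ nodup_univ, toFinset_univ, Finset.length_toList, Finset.card_univ]

lemma sum_supset {V : Type} [Fintype V] [DecidableEq V] (F : Finset V) (φ : ℕ → ℝ) :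
    ∑ W ∈ (univ : Finset V).powerset.filter (fun W => F ⊆ W), φ W.card =
      ∑ j ∈ range (Fintype.card V - F.card + 1),
        ((Fintype.card V - F.card).choose j : ℝ) * φ (F.card + j) := by
  have h1 : ∑ W ∈ (univ : Finset V).powerset.filter (fun W => F ⊆ W), φ W.card =
      ∑ T ∈ (univ \ F : Finset V).powerset, φ (F.card + T.card) := by
    refine Finset.sum_nbij' (fun W => W \ F) (fun T => F ∪ T) ?_ ?_ ?_ ?_ ?_
    · intro W _
      exact Finset.mem_powerset.2 (Finset.sdiff_subset_sdiff (Finset.subset_univ _) le_rfl)
    · intro T _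
      exact Finset.mem_filter.2 ⟨Finset.mem_powerset.2 (Finset.subset_univ _), Finset.subset_union_left⟩
    · intro W hW
      exact Finset.union_sdiff_of_subset (Finset.mem_filter.1 hW).2
    · intro T hT
      have hd : Disjoint T F := by
        rw [Finset.mem_powerset] at hT
        exact Finset.disjoint_of_subset_left hT Finset.sdiff_disjoint
      change (F ∪ T) \ F = T
      rw [Finset.union_sdiff_left]
      exact Finset.sdiff_eq_self_of_disjoint hd
    · intro W hW
      have h := (Finset.mem_filter.1 hW).2
      have h2 := Finset.card_sdiff_add_card_eq_card h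
      congr 1
      omega
  rw [h1]
  have h2 := Finset.sum_powerset_apply_card (x := (univ \ F : Finset V)) (fun n => φ (F.card + n))
  rw [h2]
  have h3 : (univ \ F : Finset V).card = Fintype.card V - F.card := by
    rw [Finset.card_univ_sdiff]
  rw [h3]
  apply Finset.sum_congr rfl
  intro j _
  rw [nsmul_eq_mul]

lemma choose_ratio {m k j : ℕ} (h : k + j ≤ m) :
    ((m.choose k : ℕ) : ℝ) * (((m - k).choose j : ℕ) : ℝ) / (((k + j).choose k : ℕ) : ℝ) =
      ((m.choose (k + j) : ℕ) : ℝ) := by
  have h1 := Nat.choose_mul (n := m) (k := k + j) (s := k) (Nat.le_add_right _ _)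
  rw [Nat.add_sub_cancel_left] at h1
  have h2 : (0 : ℝ) < (((k + j).choose k : ℕ) : ℝ) := by
    exact_mod_cast Nat.choose_pos (Nat.le_add_right _ _)
  rw [div_eq_iff h2.ne']
  exact_mod_cast h1.symm

theorem slice : S_slice := by
  intro V _ _ k P hP0 hP1 hk B hB
  set m : ℕ := Fintype.card V with hm
  have hkm : k ≤ m := by
    have h1 : P * (m : ℝ) ≤ m := by
      have := mul_le_mul_of_nonneg_right hP1 (Nat.cast_nonneg (α := ℝ) m)
      linarith
    have h2 : (k : ℝ) ≤ m := by
      have : (0 : ℝ) ≤ k := Nat.cast_nonneg _
      linarith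
    exact_mod_cast h2
  set b : ℕ → ℝ := fun s => (m.choose s : ℝ) * (P ^ s * (1 - P) ^ (m - s)) with hb
  have hb0 : ∀ s, 0 ≤ b s := fun s => by
    have : 0 ≤ 1 - P := by linarith
    simp only [hb]
    positivity
  have hA : ∑ s ∈ range (m + 1), b s = 1 := by
    have h1 := add_pow P (1 - P) m
    rw [show P + (1 - P) = 1 by ring, one_pow] at h1
    rw [h1]
    apply Finset.sum_congr rfl
    intro s _
    simp only [hb]
    ring
  have hBk : ∑ s ∈ range k, b s ≤ 1 / 2 := by
    rcases Nat.eq_zero_or_pos k with h0 | hpos
    · rw [h0]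
      norm_num
    · calc ∑ s ∈ range k, b s ≤ ∑ s ∈ range (m + 1), 2 ^ k * (b s * (1 / 2) ^ s) := by
            calc ∑ s ∈ range k, b s ≤ ∑ s ∈ range k, 2 ^ k * (b s * (1 / 2) ^ s) := by
                  apply Finset.sum_le_sum
                  intro s hs
                  have hsk : s ≤ k := (Finset.mem_range.1 hs).le
                  have h1 : (1 : ℝ) ≤ 2 ^ k * (1 / 2) ^ s := by
                    rw [one_div, inv_pow, ← div_eq_mul_inv, le_div_iff₀ (by positivity), one_mul]
                    exact pow_le_pow_right₀ (by norm_num) hsk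
                  calc b s = b s * 1 := (mul_one _).symm
                    _ ≤ b s * (2 ^ k * (1 / 2) ^ s) := mul_le_mul_of_nonneg_left h1 (hb0 s)
                    _ = _ := by ring
              _ ≤ _ := by
                  apply Finset.sum_le_sum_of_subset_of_nonneg
                  · intro s hs
                    rw [Finset.mem_range] at hs ⊢
                    omega
                  · intro s _ _
                    have := hb0 s
                    positivity
        _ = 2 ^ k * (1 - P / 2) ^ m := by
            rw [← Finset.mul_sum]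
            congr 1
            have h1 := add_pow (P / 2) (1 - P) m
            rw [show P / 2 + (1 - P) = 1 - P / 2 by ring] at h1
            rw [h1]
            apply Finset.sum_congr rfl
            intro s _
            simp only [hb]
            rw [div_pow, div_pow, one_pow]
            ring
        _ ≤ 2 ^ k * Real.exp (-(4 * k)) := by
            apply mul_le_mul_of_nonneg_left _ (by positivity)
            have h1 : 1 - P / 2 ≤ Real.exp (-(P / 2)) := by
              have := Real.add_one_le_exp (-(P / 2))
              linarith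
            calc (1 - P / 2) ^ m ≤ (Real.exp (-(P / 2))) ^ m :=
                  pow_le_pow_left₀ (by linarith) h1 m
              _ = Real.exp (-(P * m / 2)) := by
                  rw [← Real.exp_nat_mul]
                  congr 1
                  ring
              _ ≤ _ := by
                  apply Real.exp_le_exp.2
                  linarith
        _ = (2 * Real.exp (-4)) ^ k := by
            rw [mul_pow, ← Real.exp_nat_mul]
            congr 2
            ring
        _ ≤ (1 / 2) ^ k := by
            apply pow_le_pow_left₀ (by positivity)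
            have h1 := Real.add_one_le_exp (4 : ℝ)
            have h2 : Real.exp (-4) * Real.exp 4 = 1 := by rw [← Real.exp_add]; norm_num
            have h3 := Real.exp_pos (-4)
            nlinarith
        _ ≤ 1 / 2 := by
            calc ((1 : ℝ) / 2) ^ k ≤ (1 / 2) ^ 1 :=
                  pow_le_pow_of_le_one (by norm_num) (by norm_num) hpos
              _ = 1 / 2 := pow_one _
  have hC : 1 / 2 ≤ ∑ s ∈ Ico k (m + 1), b s := by
    have h1 := Finset.sum_range_add_sum_Ico b (show k ≤ m + 1 by omega)
    rw [hA] at h1
    linarith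
  -- the main inequality
  have hD : (B.card : ℝ) * ∑ s ∈ Ico k (m + 1), b s ≤
      (m.choose k : ℝ) * Ev P (fun W : Finset V => ind (∃ F ∈ B, F ⊆ W)) := by
    set wt : ℕ → ℝ := fun s => P ^ s * (1 - P) ^ (m - s) with hwt
    have hwt0 : ∀ s, 0 ≤ wt s := fun s => by
      have : 0 ≤ 1 - P := by linarith
      simp only [hwt]
      positivity
    have h1 : ∀ W : Finset V, ((B.filter (fun F => F ⊆ W)).card : ℝ) / (W.card.choose k : ℝ) ≤
        ind (∃ F ∈ B, F ⊆ W) := by
      intro W
      by_cases hex : ∃ F ∈ B, F ⊆ W
      · rw [ind_true hex]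
        have h2 : (B.filter (fun F => F ⊆ W)).card ≤ W.card.choose k := by
          rw [← Finset.card_powersetCard]
          apply Finset.card_le_card
          intro F hF
          obtain ⟨g1, g2⟩ := Finset.mem_filter.1 hF
          exact Finset.mem_powersetCard.2 ⟨g2, hB F g1⟩
        apply div_le_one_of_le₀ (by exact_mod_cast h2) (Nat.cast_nonneg _)
      · have h2 : B.filter (fun F => F ⊆ W) = ∅ := by
          rw [Finset.filter_eq_empty_iff]
          exact fun F hF h => hex ⟨F, hF, h⟩
        rw [h2]
        simp only [Finset.card_empty, Nat.cast_zero, zero_div]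
        exact ind_nonneg _
    have h2 : ∑ W ∈ (univ : Finset V).powerset,
        wt W.card * (((B.filter (fun F => F ⊆ W)).card : ℝ) / (W.card.choose k : ℝ)) ≤
        Ev P (fun W : Finset V => ind (∃ F ∈ B, F ⊆ W)) := by
      rw [Ev_formula]
      apply Finset.sum_le_sum
      intro W _
      exact mul_le_mul_of_nonneg_left (h1 W) (hwt0 W.card)
    have h3 : ∑ W ∈ (univ : Finset V).powerset,
        wt W.card * (((B.filter (fun F => F ⊆ W)).card : ℝ) / (W.card.choose k : ℝ)) =
        ∑ F ∈ B, ∑ W ∈ (univ : Finset V).powerset.filter (fun W => F ⊆ W),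
          wt W.card / (W.card.choose k : ℝ) := by
      have h4 : ∀ W : Finset V, wt W.card * (((B.filter (fun F => F ⊆ W)).card : ℝ) /
          (W.card.choose k : ℝ)) = ∑ F ∈ B, if F ⊆ W then wt W.card / (W.card.choose k : ℝ) else 0 := by
        intro W
        rw [← Finset.sum_filter, Finset.sum_const, nsmul_eq_mul]
        ring
      rw [Finset.sum_congr rfl (fun W _ => h4 W), Finset.sum_comm]
      apply Finset.sum_congr rfl
      intro F _
      rw [Finset.sum_filter]
    have h5 : ∀ F ∈ B, (m.choose k : ℝ) * ∑ W ∈ (univ : Finset V).powerset.filter (fun W => F ⊆ W),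
          wt W.card / (W.card.choose k : ℝ) = ∑ s ∈ Ico k (m + 1), b s := by
      intro F hF
      have hs := sum_supset F (fun s => wt s / (s.choose k : ℝ))
      rw [hs, hB F hF, ← hm, Finset.mul_sum, Finset.sum_Ico_eq_sum_range]
      rw [show m + 1 - k = m - k + 1 by omega]
      apply Finset.sum_congr rfl
      intro j hj
      have hj' : k + j ≤ m := by
        rw [Finset.mem_range] at hj
        omega
      simp only [hb, hwt]
      rw [← choose_ratio hj']
      ring
    calc (B.card : ℝ) * ∑ s ∈ Ico k (m + 1), b s = ∑ F ∈ B, ∑ s ∈ Ico k (m + 1), b s := by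
          rw [Finset.sum_const, nsmul_eq_mul]
      _ = (m.choose k : ℝ) * ∑ F ∈ B, ∑ W ∈ (univ : Finset V).powerset.filter (fun W => F ⊆ W),
          wt W.card / (W.card.choose k : ℝ) := by
          rw [Finset.mul_sum]
          exact Finset.sum_congr rfl fun F hF => (h5 F hF).symm
      _ ≤ _ := by
          rw [← h3]
          exact mul_le_mul_of_nonneg_left h2 (Nat.cast_nonneg _)
  calc (1 / 2 : ℝ) * B.card ≤ (B.card : ℝ) * ∑ s ∈ Ico k (m + 1), b s := by
        rw [mul_comm]
        exact mul_le_mul_of_nonneg_left hC (Nat.cast_nonneg _)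
    _ ≤ _ := hD

end Pool.Agent.H82.Diam
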