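import Pool.Agent.H30.Diam.Stubs

/-! # Project DIAM: basic facts about `EL`, `DL`, `Ev`, `Dv` (helper82) -/

set_option autoImplicit false

namespace Pool.Agent.H82.Diam

open Finset Pool.Agent.H30.Diam

section lists
variable {α : Type} [DecidableEq α]

theorem EL_nil (q : ℝ) (f : Finset α → ℝ) : EL q [] f = f ∅ := rfl

theorem EL_cons (q : ℝ) (a : α) (l : List α) (f : Finset α → ℝ) :
    EL q (a :: l) f = (1 - q) * EL q l f + q * EL q l (fun W => f (insert a W)) := rfl

theorem DL_nil (q : ℝ) (f : Finset α → Finset α → ℝ) : DL q [] f = f ∅ ∅ := rfl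

theorem DL_cons (q : ℝ) (a : α) (l : List α) (f : Finset α → Finset α → ℝ) :
    DL q (a :: l) f = (1 - 2 * q) * DL q l f + q * DL q l (fun W W' => f (insert a W) W')
      + q * DL q l (fun W W' => f W (insert a W')) := rfl

theorem EL_add (q : ℝ) (l : List α) (f g : Finset α → ℝ) :
    EL q l (fun W => f W + g W) = EL q l f + EL q l g := by
  induction l generalizing f g with
  | nil => rfl
  | cons a l ih =>
    rw [EL_cons, EL_cons, EL_cons, ih, ih (fun W => f (insert a W)) (fun W => g (insert a W))]
    ring

theorem EL_const_mul (q : ℝ) (l : List α) (c : ℝ) (f : Finset α → ℝ) :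
    EL q l (fun W => c * f W) = c * EL q l f := by
  induction l generalizing f with
  | nil => rfl
  | cons a l ih =>
    rw [EL_cons, EL_cons, ih, ih (fun W => f (insert a W))]
    ring

theorem EL_const (q : ℝ) (l : List α) (c : ℝ) : EL q l (fun _ => c) = c := by
  induction l with
  | nil => rfl
  | cons a l ih =>
    rw [EL_cons, ih]
    ring

theorem EL_neg (q : ℝ) (l : List α) (f : Finset α → ℝ) :
    EL q l (fun W => - f W) = - EL q l f := by
  have h := EL_const_mul q l (-1) f
  simpa using h

theorem EL_sub (q : ℝ) (l : List α) (f g : Finset α → ℝ) :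
    EL q l (fun W => f W - g W) = EL q l f - EL q l g := by
  have h := EL_add q l f (fun W => - g W)
  rw [EL_neg] at h
  simpa [sub_eq_add_neg] using h

theorem EL_sum {ι : Type} (q : ℝ) (l : List α) (s : Finset ι) (f : ι → Finset α → ℝ) :
    EL q l (fun W => ∑ i ∈ s, f i W) = ∑ i ∈ s, EL q l (f i) := by
  classical
  induction s using Finset.induction_on with
  | empty => simp [EL_const]
  | insert i s hi ih =>
    rw [Finset.sum_insert hi, ← ih, ← EL_add]
    congr 1
    funext W
    rw [Finset.sum_insert hi]

/-- monotonicity; only the subsets of the list matter -/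
theorem EL_mono {q : ℝ} (hq0 : 0 ≤ q) (hq1 : q ≤ 1) (l : List α) (f g : Finset α → ℝ)
    (h : ∀ W, W ⊆ l.toFinset → f W ≤ g W) : EL q l f ≤ EL q l g := by
  induction l generalizing f g with
  | nil => exact h ∅ (Finset.empty_subset _)
  | cons a l ih =>
    rw [EL_cons, EL_cons]
    have h1 := ih f g fun W hW => h W (hW.trans (by
      rw [List.toFinset_cons]; exact Finset.subset_insert _ _))
    have h2 := ih (fun W => f (insert a W)) (fun W => g (insert a W)) fun W hW =>
      h (insert a W) (by rw [List.toFinset_cons]; exact Finset.insert_subset_insert _ hW)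
    have h3 := mul_le_mul_of_nonneg_left h1 (show 0 ≤ 1 - q by linarith)
    have h4 := mul_le_mul_of_nonneg_left h2 hq0
    linarith

theorem EL_congr (q : ℝ) (l : List α) (f g : Finset α → ℝ)
    (h : ∀ W, W ⊆ l.toFinset → f W = g W) : EL q l f = EL q l g := by
  induction l generalizing f g with
  | nil => exact h ∅ (Finset.empty_subset _)
  | cons a l ih =>
    rw [EL_cons, EL_cons]
    have h1 := ih f g fun W hW => h W (hW.trans (by
      rw [List.toFinset_cons]; exact Finset.subset_insert _ _))
    have h2 := ih (fun W => f (insert a W)) (fun W => g (insert a W)) fun W hW =>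
      h (insert a W) (by rw [List.toFinset_cons]; exact Finset.insert_subset_insert _ hW)
    rw [h1, h2]

theorem EL_nonneg {q : ℝ} (hq0 : 0 ≤ q) (hq1 : q ≤ 1) (l : List α) (f : Finset α → ℝ)
    (h : ∀ W, W ⊆ l.toFinset → 0 ≤ f W) : 0 ≤ EL q l f := by
  have := EL_mono hq0 hq1 l (fun _ => 0) f h
  rwa [EL_const] at this

theorem EL_le {q : ℝ} (hq0 : 0 ≤ q) (hq1 : q ≤ 1) (l : List α) (f : Finset α → ℝ) (c : ℝ)
    (h : ∀ W, W ⊆ l.toFinset → f W ≤ c) : EL q l f ≤ c := by
  have := EL_mono hq0 hq1 l f (fun _ => c) h
  rwa [EL_const] at this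

theorem EL_ge {q : ℝ} (hq0 : 0 ≤ q) (hq1 : q ≤ 1) (l : List α) (f : Finset α → ℝ) (c : ℝ)
    (h : ∀ W, W ⊆ l.toFinset → c ≤ f W) : c ≤ EL q l f := by
  have := EL_mono hq0 hq1 l (fun _ => c) f h
  rwa [EL_const] at this

theorem DL_add (q : ℝ) (l : List α) (f g : Finset α → Finset α → ℝ) :
    DL q l (fun W W' => f W W' + g W W') = DL q l f + DL q l g := by
  induction l generalizing f g with
  | nil => rfl
  | cons a l ih =>
    rw [DL_cons, DL_cons, DL_cons, ih, ih (fun W W' => f (insert a W) W'),
      ih (fun W W' => f W (insert a W'))]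
    ring

theorem DL_const_mul (q : ℝ) (l : List α) (c : ℝ) (f : Finset α → Finset α → ℝ) :
    DL q l (fun W W' => c * f W W') = c * DL q l f := by
  induction l generalizing f with
  | nil => rfl
  | cons a l ih =>
    rw [DL_cons, DL_cons, ih, ih (fun W W' => f (insert a W) W'),
      ih (fun W W' => f W (insert a W'))]
    ring

theorem DL_const (q : ℝ) (l : List α) (c : ℝ) : DL q l (fun _ _ => c) = c := by
  induction l with
  | nil => rfl
  | cons a l ih =>
    rw [DL_cons, ih]
    ring

theorem DL_neg (q : ℝ) (l : List α) (f : Finset α → Finset α → ℝ) :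
    DL q l (fun W W' => - f W W') = - DL q l f := by
  have h := DL_const_mul q l (-1) f
  simpa using h

theorem DL_sub (q : ℝ) (l : List α) (f g : Finset α → Finset α → ℝ) :
    DL q l (fun W W' => f W W' - g W W') = DL q l f - DL q l g := by
  have h := DL_add q l f (fun W W' => - g W W')
  rw [DL_neg] at h
  simpa [sub_eq_add_neg] using h

theorem DL_sum {ι : Type} (q : ℝ) (l : List α) (s : Finset ι)
    (f : ι → Finset α → Finset α → ℝ) :
    DL q l (fun W W' => ∑ i ∈ s, f i W W') = ∑ i ∈ s, DL q l (f i) := by
  classical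
  induction s using Finset.induction_on with
  | empty => simp [DL_const]
  | insert i s hi ih =>
    rw [Finset.sum_insert hi, ← ih, ← DL_add]
    congr 1
    funext W W'
    rw [Finset.sum_insert hi]

/-- monotonicity; only disjoint pairs of subsets of the list matter -/
theorem DL_mono {q : ℝ} (hq0 : 0 ≤ q) (hq1 : q ≤ 1 / 2) (l : List α) (hl : l.Nodup)
    (f g : Finset α → Finset α → ℝ)
    (h : ∀ W W', W ⊆ l.toFinset → W' ⊆ l.toFinset → Disjoint W W' → f W W' ≤ g W W') :
    DL q l f ≤ DL q l g := by
  induction l generalizing f g with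
  | nil => exact h ∅ ∅ (Finset.empty_subset _) (Finset.empty_subset _) (Finset.disjoint_empty_left _)
  | cons a l ih =>
    rw [List.nodup_cons] at hl
    have ha : a ∉ l.toFinset := by simpa using hl.1
    have hsub : l.toFinset ⊆ (a :: l).toFinset := by
      rw [List.toFinset_cons]; exact Finset.subset_insert _ _
    have hins : ∀ W, W ⊆ l.toFinset → insert a W ⊆ (a :: l).toFinset := fun W hW => by
      rw [List.toFinset_cons]; exact Finset.insert_subset_insert _ hW
    rw [DL_cons, DL_cons]
    have h1 := ih hl.2 f g fun W W' hW hW' hd => h W W' (hW.trans hsub) (hW'.trans hsub) hd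
    have h2 := ih hl.2 (fun W W' => f (insert a W) W') (fun W W' => g (insert a W) W')
      fun W W' hW hW' hd => h (insert a W) W' (hins W hW) (hW'.trans hsub) (by
        rw [Finset.disjoint_insert_left]
        exact ⟨fun h => ha (hW' h), hd⟩)
    have h3 := ih hl.2 (fun W W' => f W (insert a W')) (fun W W' => g W (insert a W'))
      fun W W' hW hW' hd => h W (insert a W') (hW.trans hsub) (hins W' hW') (by
        rw [Finset.disjoint_insert_right]
        exact ⟨fun h => ha (hW h), hd⟩)
    have h4 := mul_le_mul_of_nonneg_left h1 (show 0 ≤ 1 - 2 * q by linarith)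
    have h5 := mul_le_mul_of_nonneg_left h2 hq0
    have h6 := mul_le_mul_of_nonneg_left h3 hq0
    linarith

theorem DL_left (q : ℝ) (l : List α) (g : Finset α → ℝ) :
    DL q l (fun W _ => g W) = EL q l g := by
  induction l generalizing g with
  | nil => rfl
  | cons a l ih =>
    rw [DL_cons, EL_cons, ih, ih (fun W => g (insert a W))]
    ring

theorem DL_right (q : ℝ) (l : List α) (g : Finset α → ℝ) :
    DL q l (fun _ W' => g W') = EL q l g := by
  induction l generalizing g with
  | nil => rfl
  | cons a l ih =>
    rw [DL_cons, EL_cons, ih, ih (fun W => g (insert a W))]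
    ring

/-- the first moment method for disjoint pairs -/
theorem DL_exists {q : ℝ} (hq0 : 0 ≤ q) (hq1 : q ≤ 1 / 2) (l : List α) (hl : l.Nodup)
    (f : Finset α → Finset α → ℝ) {c : ℝ} (h : DL q l f < c) :
    ∃ W W', Disjoint W W' ∧ f W W' < c := by
  by_contra hcon
  push Not at hcon
  have := DL_mono hq0 hq1 l hl (fun _ _ => c) f fun W W' _ _ hd => hcon W W' hd
  rw [DL_const] at this
  linarith

/-- the first moment method -/
theorem EL_exists {q : ℝ} (hq0 : 0 ≤ q) (hq1 : q ≤ 1) (l : List α)
    (f : Finset α → ℝ) {c : ℝ} (h : EL q l f < c) : ∃ W, f W < c := by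
  by_contra hcon
  push Not at hcon
  have := EL_mono hq0 hq1 l (fun _ => c) f fun W _ => hcon W
  rw [EL_const] at this
  linarith

/-- explicit formula -/
theorem EL_formula (q : ℝ) (l : List α) (hl : l.Nodup) (f : Finset α → ℝ) :
    EL q l f = ∑ W ∈ l.toFinset.powerset, q ^ W.card * (1 - q) ^ (l.length - W.card) * f W := by
  induction l generalizing f with
  | nil => simp [EL_nil]
  | cons a l ih =>
    rw [List.nodup_cons] at hl
    have ha : a ∉ l.toFinset := by simpa using hl.1
    rw [EL_cons, ih hl.2, ih hl.2, List.toFinset_cons, Finset.sum_powerset_insert ha,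
      Finset.mul_sum, Finset.mul_sum]
    have hlen : l.toFinset.card = l.length := List.toFinset_card_of_nodup hl.2
    congr 1
    · apply Finset.sum_congr rfl
      intro W hW
      have hW1 : W.card ≤ l.length := hlen ▸ Finset.card_le_card (Finset.mem_powerset.1 hW)
      rw [List.length_cons, Nat.sub_add_comm hW1, pow_succ]
      ring
    · apply Finset.sum_congr rfl
      intro W hW
      have haW : a ∉ W := fun h => ha (Finset.mem_powerset.1 hW h)
      rw [Finset.card_insert_of_notMem haW, List.length_cons, Nat.add_sub_add_right, pow_succ]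
      ring

end lists

section ind

theorem ind_nonneg (p : Prop) : 0 ≤ ind p := by
  unfold ind; split_ifs <;> norm_num

theorem ind_le_one (p : Prop) : ind p ≤ 1 := by
  unfold ind; split_ifs <;> norm_num

theorem ind_true {p : Prop} (h : p) : ind p = 1 := by
  unfold ind; rw [if_pos h]

theorem ind_false {p : Prop} (h : ¬ p) : ind p = 0 := by
  unfold ind; rw [if_neg h]

theorem ind_mono {p r : Prop} (h : p → r) : ind p ≤ ind r := by
  by_cases hp : p
  · rw [ind_true hp, ind_true (h hp)]
  · rw [ind_false hp]; exact ind_nonneg r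

theorem ind_congr {p r : Prop} (h : p ↔ r) : ind p = ind r := by
  rw [propext h]

theorem ind_sq (p : Prop) : ind p ^ 2 = ind p := by
  unfold ind; split_ifs <;> norm_num

end ind

section types
variable {V : Type} [Fintype V] [DecidableEq V]

theorem nodup_univ : (Finset.univ : Finset V).toList.Nodup := Finset.nodup_toList _

theorem toFinset_univ : ((Finset.univ : Finset V).toList).toFinset = Finset.univ :=
  Finset.toList_toFinset _

end types

end Pool.Agent.H82.Diam
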